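import Pool.Agent.Helper82.OneArm.Defs

/-! Module GFunW (general loop weight): the explicit functions `gf`, `hf`. -/

open Real MeasureTheory Filter Topology

namespace OneArmW

open OneArm

/-! ### complex hyperbolic functions on horizontal lines -/

theorem norm_cosh_le (z : ℂ) : ‖Complex.cosh z‖ ≤ Real.cosh z.re := by
  rw [Complex.cosh, Real.cosh_eq]
  rw [norm_div]
  have h2 : ‖(2 : ℂ)‖ = 2 := by simp
  rw [h2]
  have h1 := norm_add_le (Complex.exp z) (Complex.exp (-z))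
  rw [Complex.norm_exp, Complex.norm_exp, Complex.neg_re] at h1
  linarith

theorem norm_sinh_le (z : ℂ) : ‖Complex.sinh z‖ ≤ Real.cosh z.re := by
  rw [Complex.sinh, Real.cosh_eq]
  rw [norm_div]
  have h2 : ‖(2 : ℂ)‖ = 2 := by simp
  rw [h2]
  have h1 := norm_sub_le (Complex.exp z) (Complex.exp (-z))
  rw [Complex.norm_exp, Complex.norm_exp, Complex.neg_re] at h1
  linarith

theorem cosh_re (Y b : ℝ) :
    (Complex.cosh ((Y : ℂ) + (b : ℂ) * Complex.I)).re = Real.cosh Y * Real.cos b := by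
  rw [Complex.cosh_add, Complex.cosh_mul_I, Complex.sinh_mul_I]
  simp [Complex.cosh_ofReal_re, Complex.cos_ofReal_re, Complex.sinh_ofReal_re,
    Complex.sin_ofReal_re, Complex.cosh_ofReal_im, Complex.cos_ofReal_im, Complex.sinh_ofReal_im,
    Complex.sin_ofReal_im]

theorem cosh_im (Y b : ℝ) :
    (Complex.cosh ((Y : ℂ) + (b : ℂ) * Complex.I)).im = Real.sinh Y * Real.sin b := by
  rw [Complex.cosh_add, Complex.cosh_mul_I, Complex.sinh_mul_I]
  simp [Complex.cosh_ofReal_re, Complex.cos_ofReal_re, Complex.sinh_ofReal_re,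
    Complex.sin_ofReal_re, Complex.cosh_ofReal_im, Complex.cos_ofReal_im, Complex.sinh_ofReal_im,
    Complex.sin_ofReal_im]

theorem le_norm_cosh (Y b : ℝ) :
    Real.cosh Y * Real.cos b ≤ ‖Complex.cosh ((Y : ℂ) + (b : ℂ) * Complex.I)‖ := by
  rw [← cosh_re]
  exact Complex.re_le_norm _

theorem cosh_ge_exp (Y : ℝ) : Real.exp |Y| / 2 ≤ Real.cosh Y := by
  rw [← Real.cosh_abs, Real.cosh_eq]
  have := Real.exp_pos (-|Y|)
  linarith

theorem cosh_le_exp (Y : ℝ) : Real.cosh Y ≤ Real.exp |Y| := by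
  rw [← Real.cosh_abs, Real.cosh_eq]
  have : Real.exp (-|Y|) ≤ Real.exp |Y| := Real.exp_le_exp.mpr (by linarith [abs_nonneg Y])
  linarith

/-- rewriting of the arguments -/
theorem arg1 (θ v : ℝ) : (π * v / 2 + (3 * θ / 4 : ℝ) * Complex.I : ℂ) =
    ((π * v / 2 : ℝ) : ℂ) + ((3 * θ / 4 : ℝ) : ℂ) * Complex.I := by
  push_cast; ring

theorem arg3 (θ v : ℝ) : (3 * π * v / 2 + (3 * θ / 4 : ℝ) * Complex.I : ℂ) =
    ((3 * π * v / 2 : ℝ) : ℂ) + ((3 * θ / 4 : ℝ) : ℂ) * Complex.I := by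
  push_cast; ring

theorem cosb_pos {θ : ℝ} (hθ : θ ∈ Set.Ioo (-(2 * π / 3)) (2 * π / 3)) : 0 < Real.cos (3 * θ / 4) := by
  apply Real.cos_pos_of_mem_Ioo
  constructor
  · have := hθ.1
    have := Real.pi_pos
    linarith
  · have := hθ.2
    linarith

theorem cosh1_ne (θ v : ℝ) (hθ : θ ∈ Set.Ioo (-(2 * π / 3)) (2 * π / 3)) :
    Complex.cosh (π * v / 2 + (3 * θ / 4 : ℝ) * Complex.I) ≠ 0 := by
  rw [arg1]
  intro h
  have h1 := le_norm_cosh (π * v / 2) (3 * θ / 4)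
  rw [h, norm_zero] at h1
  have h2 := mul_pos (Real.cosh_pos (π * v / 2)) (cosb_pos hθ)
  linarith

theorem cosh3_ne (θ v : ℝ) (hθ : θ ∈ Set.Ioo (-(2 * π / 3)) (2 * π / 3)) :
    Complex.cosh (3 * π * v / 2 + (3 * θ / 4 : ℝ) * Complex.I) ≠ 0 := by
  rw [arg3]
  intro h
  have h1 := le_norm_cosh (3 * π * v / 2) (3 * θ / 4)
  rw [h, norm_zero] at h1
  have h2 := mul_pos (Real.cosh_pos (3 * π * v / 2)) (cosb_pos hθ)
  linarith

/-- the larger interval is in the open interval -/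
theorem mem_Ioo_of_big {θ T : ℝ} (hT : T < 2 * π / 3) (hθ : |θ| ≤ T) :
    θ ∈ Set.Ioo (-(2 * π / 3)) (2 * π / 3) := by
  obtain ⟨h1, h2⟩ := abs_le.mp hθ
  constructor
  · linarith
  · linarith

theorem gf_sub_one {θ : ℝ} (hθ : θ ∈ Set.Ioo (-(2 * π / 3)) (2 * π / 3)) (v : ℝ) :
    gf θ v = 1 + Complex.cosh (π * v / 2 - (3 * θ / 4 : ℝ) * Complex.I) /
      Complex.cosh (3 * π * v / 2 + (3 * θ / 4 : ℝ) * Complex.I) := by
  have h3 := cosh3_ne θ v hθ
  unfold gf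
  rw [div_eq_iff h3, add_mul, one_mul, div_mul_cancel₀ _ h3]
  have e1 : (3 * π * v / 2 + (3 * θ / 4 : ℝ) * Complex.I : ℂ) =
      (π * v / 2 + (3 * θ / 4 : ℝ) * Complex.I) + (π * v : ℂ) := by ring
  have e2 : Complex.cosh (π * v / 2 - (3 * θ / 4 : ℝ) * Complex.I : ℂ) =
      Complex.cosh ((π * v / 2 + (3 * θ / 4 : ℝ) * Complex.I) - (π * v : ℂ)) := by
    rw [← Complex.cosh_neg]
    congr 1
    ring
  rw [e2, e1]
  rw [Complex.cosh_add (π * v / 2 + (3 * θ / 4 : ℝ) * Complex.I) (π * v : ℂ),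
    Complex.cosh_sub (π * v / 2 + (3 * θ / 4 : ℝ) * Complex.I) (π * v : ℂ)]
  ring

theorem hf_alt {θ : ℝ} (hθ : θ ∈ Set.Ioo (-(2 * π / 3)) (2 * π / 3)) (v : ℝ) :
    hf θ v = -((3 / 4 : ℝ) * Complex.I * Complex.sinh (π * v : ℂ) /
      (Complex.cosh (π * v / 2 + (3 * θ / 4 : ℝ) * Complex.I) *
        Complex.cosh (3 * π * v / 2 + (3 * θ / 4 : ℝ) * Complex.I))) := by
  have h1 := cosh1_ne θ v hθ
  have h3 := cosh3_ne θ v hθ
  unfold hf
  have e1 : Complex.sinh (π * v : ℂ) =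
      Complex.sinh ((3 * π * v / 2 + (3 * θ / 4 : ℝ) * Complex.I) -
        (π * v / 2 + (3 * θ / 4 : ℝ) * Complex.I)) := by
    congr 1
    ring
  rw [e1, Complex.sinh_sub, div_sub_div _ _ h1 h3]
  field_simp
  ring

/-! ### bounds -/

theorem c0_pos {θ T : ℝ} (hT : T < 2 * π / 3) (hθ : |θ| ≤ T) : 0 < Real.cos (3 * T / 4) := by
  have h0 := abs_nonneg θ
  apply Real.cos_pos_of_mem_Ioo
  have := Real.pi_pos
  constructor <;> linarith

theorem cosb_ge {θ T : ℝ} (hT : T < 2 * π / 3) (hθ : |θ| ≤ T) :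
    Real.cos (3 * T / 4) ≤ Real.cos (3 * θ / 4) := by
  have := Real.pi_pos
  have h0 := abs_nonneg θ
  rw [← Real.cos_abs (3 * θ / 4)]
  have e : |3 * θ / 4| = 3 * |θ| / 4 := by
    rw [abs_div, abs_mul]
    norm_num
  rw [e]
  apply Real.cos_le_cos_of_nonneg_of_le_pi
  · linarith
  · linarith
  · linarith

theorem le_norm1 {θ T : ℝ} (hT : T < 2 * π / 3) (hθ : |θ| ≤ T) (v : ℝ) :
    Real.cos (3 * T / 4) / 2 * Real.exp (π * |v| / 2) ≤
      ‖Complex.cosh (π * v / 2 + (3 * θ / 4 : ℝ) * Complex.I)‖ := by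
  rw [arg1]
  refine le_trans ?_ (le_norm_cosh _ _)
  have h1 := cosh_ge_exp (π * v / 2)
  have h2 : |π * v / 2| = π * |v| / 2 := by
    rw [abs_div, abs_mul, abs_of_pos Real.pi_pos, abs_two]
  rw [h2] at h1
  have h3 := cosb_ge hT hθ
  have h4 := c0_pos hT hθ
  calc Real.cos (3 * T / 4) / 2 * Real.exp (π * |v| / 2) =
        (Real.exp (π * |v| / 2) / 2) * Real.cos (3 * T / 4) := by ring
    _ ≤ Real.cosh (π * v / 2) * Real.cos (3 * θ / 4) := by
        apply mul_le_mul h1 h3 h4.le (Real.cosh_pos _).le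

theorem le_norm3 {θ T : ℝ} (hT : T < 2 * π / 3) (hθ : |θ| ≤ T) (v : ℝ) :
    Real.cos (3 * T / 4) / 2 * Real.exp (3 * (π * |v| / 2)) ≤
      ‖Complex.cosh (3 * π * v / 2 + (3 * θ / 4 : ℝ) * Complex.I)‖ := by
  rw [arg3]
  refine le_trans ?_ (le_norm_cosh _ _)
  have h1 := cosh_ge_exp (3 * π * v / 2)
  have h2 : |3 * π * v / 2| = 3 * (π * |v| / 2) := by
    rw [abs_div, abs_mul, abs_mul, abs_of_pos Real.pi_pos, abs_two]
    rw [abs_of_pos (by norm_num : (0 : ℝ) < 3)]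
    ring
  rw [h2] at h1
  have h3 := cosb_ge hT hθ
  have h4 := c0_pos hT hθ
  calc Real.cos (3 * T / 4) / 2 * Real.exp (3 * (π * |v| / 2)) =
        (Real.exp (3 * (π * |v| / 2)) / 2) * Real.cos (3 * T / 4) := by ring
    _ ≤ Real.cosh (3 * π * v / 2) * Real.cos (3 * θ / 4) := by
        apply mul_le_mul h1 h3 h4.le (Real.cosh_pos _).le

theorem norm_up1 (θ v : ℝ) :
    ‖Complex.cosh (π * v / 2 + (3 * θ / 4 : ℝ) * Complex.I)‖ ≤ Real.exp (π * |v| / 2) ∧
    ‖Complex.sinh (π * v / 2 + (3 * θ / 4 : ℝ) * Complex.I)‖ ≤ Real.exp (π * |v| / 2) ∧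
    ‖Complex.cosh (π * v / 2 - (3 * θ / 4 : ℝ) * Complex.I)‖ ≤ Real.exp (π * |v| / 2) ∧
    ‖Complex.sinh (π * v / 2 - (3 * θ / 4 : ℝ) * Complex.I)‖ ≤ Real.exp (π * |v| / 2) := by
  have h2 : |π * v / 2| = π * |v| / 2 := by
    rw [abs_div, abs_mul, abs_of_pos Real.pi_pos, abs_two]
  have e1 : (π * v / 2 + (3 * θ / 4 : ℝ) * Complex.I : ℂ).re = π * v / 2 := by
    rw [arg1]; simp
  have e2 : (π * v / 2 - (3 * θ / 4 : ℝ) * Complex.I : ℂ).re = π * v / 2 := by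
    have : (π * v / 2 - (3 * θ / 4 : ℝ) * Complex.I : ℂ) =
      ((π * v / 2 : ℝ) : ℂ) - ((3 * θ / 4 : ℝ) : ℂ) * Complex.I := by
        push_cast; ring
    rw [this]; simp
  have h3 := cosh_le_exp (π * v / 2)
  rw [h2] at h3
  refine ⟨?_, ?_, ?_, ?_⟩
  · refine (norm_cosh_le _).trans ?_
    rw [e1]; exact h3
  · refine (norm_sinh_le _).trans ?_
    rw [e1]; exact h3
  · refine (norm_cosh_le _).trans ?_
    rw [e2]; exact h3
  · refine (norm_sinh_le _).trans ?_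
    rw [e2]; exact h3

theorem norm_up3 (θ v : ℝ) :
    ‖Complex.cosh (3 * π * v / 2 + (3 * θ / 4 : ℝ) * Complex.I)‖ ≤
      Real.exp (3 * (π * |v| / 2)) ∧
    ‖Complex.sinh (3 * π * v / 2 + (3 * θ / 4 : ℝ) * Complex.I)‖ ≤
      Real.exp (3 * (π * |v| / 2)) := by
  have h2 : |3 * π * v / 2| = 3 * (π * |v| / 2) := by
    rw [abs_div, abs_mul, abs_mul, abs_of_pos Real.pi_pos, abs_two]
    rw [abs_of_pos (by norm_num : (0 : ℝ) < 3)]
    ring
  have e1 : (3 * π * v / 2 + (3 * θ / 4 : ℝ) * Complex.I : ℂ).re = 3 * π * v / 2 := by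
    rw [arg3]; simp
  have h3 := cosh_le_exp (3 * π * v / 2)
  rw [h2] at h3
  refine ⟨?_, ?_⟩
  · refine (norm_cosh_le _).trans ?_
    rw [e1]; exact h3
  · refine (norm_sinh_le _).trans ?_
    rw [e1]; exact h3

theorem exp_pi_le (v : ℝ) : Real.exp (-(π * |v|)) ≤ Real.exp (-|v|) := by
  apply Real.exp_le_exp.mpr
  have h1 := Real.pi_gt_three
  have h2 := abs_nonneg v
  nlinarith

theorem gf_dec {θ T : ℝ} (hT : T < 2 * π / 3) (hθ : |θ| ≤ T) (v : ℝ) :
    ‖gf θ v - 1‖ ≤ 2 / Real.cos (3 * T / 4) * Real.exp (-|v|) := by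
  rw [gf_sub_one (mem_Ioo_of_big hT hθ), add_sub_cancel_left, norm_div]
  have h1 := (norm_up1 θ v).2.2.1
  have h3 := le_norm3 hT hθ v
  have h4 := c0_pos hT hθ
  calc ‖Complex.cosh (π * v / 2 - (3 * θ / 4 : ℝ) * Complex.I)‖ /
        ‖Complex.cosh (3 * π * v / 2 + (3 * θ / 4 : ℝ) * Complex.I)‖
      ≤ Real.exp (π * |v| / 2) / (Real.cos (3 * T / 4) / 2 * Real.exp (3 * (π * |v| / 2))) := by
        apply div_le_div₀ (Real.exp_pos _).le h1 (by positivity) h3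
    _ = 2 / Real.cos (3 * T / 4) * Real.exp (-(π * |v|)) := by
        rw [show 3 * (π * |v| / 2) = π * |v| / 2 + π * |v| by ring, Real.exp_add, Real.exp_neg]
        field_simp
    _ ≤ 2 / Real.cos (3 * T / 4) * Real.exp (-|v|) := by
        apply mul_le_mul_of_nonneg_left (exp_pi_le v) (by positivity)

theorem hf_dec {θ T : ℝ} (hT : T < 2 * π / 3) (hθ : |θ| ≤ T) (v : ℝ) :
    ‖hf θ v‖ ≤ 3 / Real.cos (3 * T / 4) ^ 2 * Real.exp (-|v|) := by
  rw [hf_alt (mem_Ioo_of_big hT hθ), norm_neg, norm_div, norm_mul, norm_mul, norm_mul,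
    Complex.norm_I, mul_one]
  have h1 := le_norm1 hT hθ v
  have h3 := le_norm3 hT hθ v
  have h4 := c0_pos hT hθ
  have h5 : ‖Complex.sinh (π * v : ℂ)‖ ≤ Real.exp (π * |v|) := by
    refine (norm_sinh_le _).trans ?_
    have e1 : (π * v : ℂ).re = π * v := by
      simp
    rw [e1]
    refine (cosh_le_exp _).trans ?_
    rw [abs_mul, abs_of_pos Real.pi_pos]
  have h6 : ‖((3 / 4 : ℝ) : ℂ)‖ = 3 / 4 := by
    rw [Complex.norm_real]; norm_num
  rw [h6]
  calc 3 / 4 * ‖Complex.sinh (π * v : ℂ)‖ /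
        (‖Complex.cosh (π * v / 2 + (3 * θ / 4 : ℝ) * Complex.I)‖ *
          ‖Complex.cosh (3 * π * v / 2 + (3 * θ / 4 : ℝ) * Complex.I)‖)
      ≤ 3 / 4 * Real.exp (π * |v|) / ((Real.cos (3 * T / 4) / 2 * Real.exp (π * |v| / 2)) *
          (Real.cos (3 * T / 4) / 2 * Real.exp (3 * (π * |v| / 2)))) := by
        apply div_le_div₀ (by positivity) (by linarith) (by positivity)
        exact mul_le_mul h1 h3 (by positivity) (norm_nonneg _)
    _ = 3 / Real.cos (3 * T / 4) ^ 2 * Real.exp (-(π * |v|)) := by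
        have e3 : Real.exp (π * |v|) = Real.exp (π * |v| / 2) ^ 2 := by
          rw [← Real.exp_nat_mul]; congr 1; push_cast; ring
        have e4 : Real.exp (3 * (π * |v| / 2)) = Real.exp (π * |v| / 2) ^ 3 := by
          rw [← Real.exp_nat_mul]; norm_num
        rw [Real.exp_neg, e3, e4]
        field_simp
        norm_num
    _ ≤ 3 / Real.cos (3 * T / 4) ^ 2 * Real.exp (-|v|) := by
        apply mul_le_mul_of_nonneg_left (exp_pi_le v) (by positivity)

theorem lip_of_deriv {f f' : ℝ → ℂ} {c : ℂ} {M : ℝ} (hd : ∀ v, HasDerivAt f (f' v) v)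
    (hb : ∀ v, ‖f' v‖ ≤ M * Real.exp (-|v|)) (hc : ∀ v, ‖f v - c‖ ≤ M * Real.exp (-|v|)) (v x : ℝ) :
    ‖f v - f x‖ ≤ 3 * M * |v - x| * (Real.exp (-|v|) + Real.exp (-|x|)) := by
  have hM : 0 ≤ M := by
    have := (norm_nonneg _).trans (hc 0)
    simpa using this
  have hev := Real.exp_pos (-|v|)
  have hex := Real.exp_pos (-|x|)
  rcases le_or_gt 1 |v - x| with h | h
  · have h1 : ‖f v - f x‖ ≤ M * Real.exp (-|v|) + M * Real.exp (-|x|) := by
      have : f v - f x = (f v - c) - (f x - c) := by ring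
      rw [this]
      exact (norm_sub_le _ _).trans (add_le_add (hc v) (hc x))
    have h2 : M * (Real.exp (-|v|) + Real.exp (-|x|)) ≤
        3 * M * |v - x| * (Real.exp (-|v|) + Real.exp (-|x|)) := by
      apply mul_le_mul_of_nonneg_right _ (by positivity)
      nlinarith
    linarith
  · have h1 : ‖f v - f x‖ ≤ 3 * M * Real.exp (-|v|) * ‖v - x‖ := by
      apply Convex.norm_image_sub_le_of_norm_hasDerivWithin_le (s := Set.uIcc x v) (f' := f')
        (fun s _ => (hd s).hasDerivWithinAt) _ (convex_uIcc x v) Set.left_mem_uIcc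
        Set.right_mem_uIcc
      intro s hs
      refine (hb s).trans ?_
      have h2 : |v| - 1 ≤ |s| := by
        have h3 : |v - s| ≤ |v - x| := Set.abs_sub_right_of_mem_uIcc hs
        have h4 := abs_sub_abs_le_abs_sub v s
        linarith
      have h5 : Real.exp (-|s|) ≤ 3 * Real.exp (-|v|) := by
        calc Real.exp (-|s|) ≤ Real.exp (1 + -|v|) := Real.exp_le_exp.mpr (by linarith)
          _ = Real.exp 1 * Real.exp (-|v|) := Real.exp_add _ _
          _ ≤ 3 * Real.exp (-|v|) := by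
            apply mul_le_mul_of_nonneg_right _ hev.le
            have := Real.exp_one_lt_d9
            linarith
      nlinarith
    rw [Real.norm_eq_abs] at h1
    have h2 : 3 * M * Real.exp (-|v|) * |v - x| ≤
        3 * M * |v - x| * (Real.exp (-|v|) + Real.exp (-|x|)) := by
      have : 0 ≤ 3 * M * |v - x| * Real.exp (-|x|) := by positivity
      nlinarith
    linarith

/-! ### derivatives in `v` -/

theorem rccosh {f : ℝ → ℂ} {f' : ℂ} {x : ℝ} (hf : HasDerivAt f f' x) :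
    HasDerivAt (fun s => Complex.cosh (f s)) (Complex.sinh (f x) * f') x :=
  (Complex.hasDerivAt_cosh (f x)).comp x hf

theorem rcsinh {f : ℝ → ℂ} {f' : ℂ} {x : ℝ} (hf : HasDerivAt f f' x) :
    HasDerivAt (fun s => Complex.sinh (f s)) (Complex.cosh (f x) * f') x :=
  (Complex.hasDerivAt_sinh (f x)).comp x hf

theorem hd_arg1 (c : ℂ) (v : ℝ) :
    HasDerivAt (fun s : ℝ => (π * s / 2 + c : ℂ)) (π / 2 : ℂ) v := by
  have h : HasDerivAt (fun s : ℝ => (s : ℂ)) 1 v := Complex.ofRealCLM.hasDerivAt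
  have h2 := ((h.const_mul (π : ℂ)).div_const 2).add_const c
  rw [mul_one] at h2
  exact h2

theorem hd_arg3 (c : ℂ) (v : ℝ) :
    HasDerivAt (fun s : ℝ => (3 * π * s / 2 + c : ℂ)) (3 * π / 2 : ℂ) v := by
  have h : HasDerivAt (fun s : ℝ => (s : ℂ)) 1 v := Complex.ofRealCLM.hasDerivAt
  have h2 := ((h.const_mul (3 * π : ℂ)).div_const 2).add_const c
  rw [mul_one] at h2
  exact h2

/-- `∂_v g` -/
noncomputable def gd (θ v : ℝ) : ℂ :=
  (π / 2) * (Complex.sinh (π * v / 2 - (3 * θ / 4 : ℝ) * Complex.I) *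
      Complex.cosh (3 * π * v / 2 + (3 * θ / 4 : ℝ) * Complex.I) -
    3 * (Complex.cosh (π * v / 2 - (3 * θ / 4 : ℝ) * Complex.I) *
      Complex.sinh (3 * π * v / 2 + (3 * θ / 4 : ℝ) * Complex.I))) /
    Complex.cosh (3 * π * v / 2 + (3 * θ / 4 : ℝ) * Complex.I) ^ 2

theorem gf_hasDerivAt_v {θ : ℝ} (hθ : θ ∈ Set.Ioo (-(2 * π / 3)) (2 * π / 3)) (v : ℝ) :
    HasDerivAt (gf θ) (gd θ v) v := by
  have e : gf θ = fun v : ℝ => 1 + Complex.cosh (π * v / 2 - (3 * θ / 4 : ℝ) * Complex.I) /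
      Complex.cosh (3 * π * v / 2 + (3 * θ / 4 : ℝ) * Complex.I) := by
    ext v
    exact gf_sub_one hθ v
  rw [e]
  have h3 := cosh3_ne θ v hθ
  have d1 : HasDerivAt (fun s : ℝ => (π * s / 2 - (3 * θ / 4 : ℝ) * Complex.I : ℂ)) (π / 2 : ℂ) v := by
    simpa [sub_eq_add_neg] using hd_arg1 (-((3 * θ / 4 : ℝ) * Complex.I)) v
  have d3 := hd_arg3 ((3 * θ / 4 : ℝ) * Complex.I) v
  have D := ((rccosh d1).div (rccosh d3) h3).const_add 1
  refine D.congr_deriv ?_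
  unfold gd
  field_simp

theorem gd_bound {θ T : ℝ} (hT : T < 2 * π / 3) (hθ : |θ| ≤ T) (v : ℝ) :
    ‖gd θ v‖ ≤ 30 / Real.cos (3 * T / 4) ^ 2 * Real.exp (-|v|) := by
  unfold gd
  rw [norm_div, norm_mul, norm_pow]
  have h1 := norm_up1 θ v
  have h3' := norm_up3 θ v
  have h3 := le_norm3 hT hθ v
  have h4 := c0_pos hT hθ
  have hp : ‖(π / 2 : ℂ)‖ = π / 2 := by
    rw [norm_div, Complex.norm_real, Real.norm_eq_abs, abs_of_pos Real.pi_pos]; simp
  rw [hp]
  set E := Real.exp (π * |v| / 2) with hE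
  have hE0 : 0 < E := Real.exp_pos _
  have e4 : Real.exp (3 * (π * |v| / 2)) = E ^ 3 := by
    rw [hE, ← Real.exp_nat_mul]; norm_num
  rw [e4] at h3 h3'
  have hN : ‖Complex.sinh (π * v / 2 - (3 * θ / 4 : ℝ) * Complex.I) *
      Complex.cosh (3 * π * v / 2 + (3 * θ / 4 : ℝ) * Complex.I) -
    3 * (Complex.cosh (π * v / 2 - (3 * θ / 4 : ℝ) * Complex.I) *
      Complex.sinh (3 * π * v / 2 + (3 * θ / 4 : ℝ) * Complex.I))‖ ≤ 4 * (E * E ^ 3) := by
    refine (norm_sub_le _ _).trans ?_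
    rw [norm_mul, norm_mul, norm_mul]
    have h33 : ‖(3 : ℂ)‖ = 3 := by simp
    rw [h33]
    have a1 := mul_le_mul h1.2.2.2 h3'.1 (norm_nonneg _) hE0.le
    have a2 := mul_le_mul h1.2.2.1 h3'.2 (norm_nonneg _) hE0.le
    linarith
  calc π / 2 * ‖Complex.sinh (π * v / 2 - (3 * θ / 4 : ℝ) * Complex.I) *
      Complex.cosh (3 * π * v / 2 + (3 * θ / 4 : ℝ) * Complex.I) -
    3 * (Complex.cosh (π * v / 2 - (3 * θ / 4 : ℝ) * Complex.I) *
      Complex.sinh (3 * π * v / 2 + (3 * θ / 4 : ℝ) * Complex.I))‖ /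
        ‖Complex.cosh (3 * π * v / 2 + (3 * θ / 4 : ℝ) * Complex.I)‖ ^ 2
      ≤ π / 2 * (4 * (E * E ^ 3)) / (Real.cos (3 * T / 4) / 2 * E ^ 3) ^ 2 := by
        apply div_le_div₀ (by positivity) (mul_le_mul_of_nonneg_left hN (by positivity))
          (by positivity)
        exact pow_le_pow_left₀ (by positivity) h3 2
    _ = 8 * π / Real.cos (3 * T / 4) ^ 2 * Real.exp (-(π * |v|)) := by
        have e3 : Real.exp (π * |v|) = E ^ 2 := by
          rw [hE, ← Real.exp_nat_mul]; congr 1; push_cast; ring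
        rw [Real.exp_neg, e3]
        field_simp
        norm_num
    _ ≤ 30 / Real.cos (3 * T / 4) ^ 2 * Real.exp (-|v|) := by
        apply mul_le_mul _ (exp_pi_le v) (Real.exp_pos _).le (by positivity)
        apply div_le_div_of_nonneg_right _ (by positivity)
        have := Real.pi_lt_d2
        linarith

/-- `∂_v h` -/
noncomputable def hd (θ v : ℝ) : ℂ :=
  (3 / 4 : ℝ) * Complex.I * (π / 2) *
    (1 / Complex.cosh (π * v / 2 + (3 * θ / 4 : ℝ) * Complex.I) ^ 2 -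
      3 / Complex.cosh (3 * π * v / 2 + (3 * θ / 4 : ℝ) * Complex.I) ^ 2)

theorem hf_hasDerivAt_v {θ : ℝ} (hθ : θ ∈ Set.Ioo (-(2 * π / 3)) (2 * π / 3)) (v : ℝ) :
    HasDerivAt (hf θ) (hd θ v) v := by
  have h1 := cosh1_ne θ v hθ
  have h3 := cosh3_ne θ v hθ
  have d1 := hd_arg1 ((3 * θ / 4 : ℝ) * Complex.I) v
  have d3 := hd_arg3 ((3 * θ / 4 : ℝ) * Complex.I) v
  have D := (((rcsinh d1).div (rccosh d1) h1).sub ((rcsinh d3).div (rccosh d3) h3)).const_mul
    ((3 / 4 : ℝ) * Complex.I)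
  have e : hf θ = fun v : ℝ => ((3 / 4 : ℝ) * Complex.I *
    (Complex.sinh (π * v / 2 + (3 * θ / 4 : ℝ) * Complex.I) /
        Complex.cosh (π * v / 2 + (3 * θ / 4 : ℝ) * Complex.I) -
      Complex.sinh (3 * π * v / 2 + (3 * θ / 4 : ℝ) * Complex.I) /
        Complex.cosh (3 * π * v / 2 + (3 * θ / 4 : ℝ) * Complex.I)) : ℂ) := by
    ext v; rfl
  rw [e]
  refine D.congr_deriv ?_
  unfold hd
  have c1 := Complex.cosh_sq_sub_sinh_sq (π * v / 2 + (3 * θ / 4 : ℝ) * Complex.I)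
  have c3 := Complex.cosh_sq_sub_sinh_sq (3 * π * v / 2 + (3 * θ / 4 : ℝ) * Complex.I)
  have t1 : (Complex.cosh (π * v / 2 + (3 * θ / 4 : ℝ) * Complex.I) * (π / 2 : ℂ) *
      Complex.cosh (π * v / 2 + (3 * θ / 4 : ℝ) * Complex.I) -
      Complex.sinh (π * v / 2 + (3 * θ / 4 : ℝ) * Complex.I) *
      (Complex.sinh (π * v / 2 + (3 * θ / 4 : ℝ) * Complex.I) * (π / 2 : ℂ))) = π / 2 := by
    linear_combination (π / 2 : ℂ) * c1
  have t3 : (Complex.cosh (3 * π * v / 2 + (3 * θ / 4 : ℝ) * Complex.I) * (3 * π / 2 : ℂ) *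
      Complex.cosh (3 * π * v / 2 + (3 * θ / 4 : ℝ) * Complex.I) -
      Complex.sinh (3 * π * v / 2 + (3 * θ / 4 : ℝ) * Complex.I) *
      (Complex.sinh (3 * π * v / 2 + (3 * θ / 4 : ℝ) * Complex.I) * (3 * π / 2 : ℂ))) =
      3 * π / 2 := by
    linear_combination (3 * π / 2 : ℂ) * c3
  rw [t1, t3]
  ring

theorem hd_bound {θ T : ℝ} (hT : T < 2 * π / 3) (hθ : |θ| ≤ T) (v : ℝ) :
    ‖hd θ v‖ ≤ 30 / Real.cos (3 * T / 4) ^ 2 * Real.exp (-|v|) := by
  unfold hd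
  rw [norm_mul, norm_mul, norm_mul, Complex.norm_I, mul_one]
  have h1 := le_norm1 hT hθ v
  have h3 := le_norm3 hT hθ v
  have h4 := c0_pos hT hθ
  have hp : ‖(π / 2 : ℂ)‖ = π / 2 := by
    rw [norm_div, Complex.norm_real, Real.norm_eq_abs, abs_of_pos Real.pi_pos]; simp
  have h6 : ‖((3 / 4 : ℝ) : ℂ)‖ = 3 / 4 := by
    rw [Complex.norm_real]; norm_num
  rw [hp, h6]
  set E := Real.exp (π * |v| / 2) with hE
  have hE0 : 0 < E := Real.exp_pos _
  have hE1 : 1 ≤ E := Real.one_le_exp (by have := Real.pi_pos; positivity)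
  have e4 : Real.exp (3 * (π * |v| / 2)) = E ^ 3 := by
    rw [hE, ← Real.exp_nat_mul]; norm_num
  rw [e4] at h3
  have h3' : Real.cos (3 * T / 4) / 2 * E ≤
      ‖Complex.cosh (3 * π * v / 2 + (3 * θ / 4 : ℝ) * Complex.I)‖ := by
    refine le_trans ?_ h3
    apply mul_le_mul_of_nonneg_left _ (by positivity)
    nlinarith [sq_nonneg (E - 1), mul_pos hE0 hE0]
  have b1 : ‖1 / Complex.cosh (π * v / 2 + (3 * θ / 4 : ℝ) * Complex.I) ^ 2‖ ≤
      4 / Real.cos (3 * T / 4) ^ 2 * Real.exp (-(π * |v|)) := by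
    have e3 : Real.exp (π * |v|) = E ^ 2 := by
      rw [hE, ← Real.exp_nat_mul]; congr 1; push_cast; ring
    rw [norm_div, norm_pow, norm_one]
    calc 1 / ‖Complex.cosh (π * v / 2 + (3 * θ / 4 : ℝ) * Complex.I)‖ ^ 2
        ≤ 1 / (Real.cos (3 * T / 4) / 2 * E) ^ 2 := by
          apply div_le_div_of_nonneg_left zero_le_one (by positivity)
          exact pow_le_pow_left₀ (by positivity) h1 2
      _ = 4 / Real.cos (3 * T / 4) ^ 2 * Real.exp (-(π * |v|)) := by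
          rw [Real.exp_neg, e3]
          field_simp
          norm_num
  have b3 : ‖3 / Complex.cosh (3 * π * v / 2 + (3 * θ / 4 : ℝ) * Complex.I) ^ 2‖ ≤
      12 / Real.cos (3 * T / 4) ^ 2 * Real.exp (-(π * |v|)) := by
    have e3 : Real.exp (π * |v|) = E ^ 2 := by
      rw [hE, ← Real.exp_nat_mul]; congr 1; push_cast; ring
    rw [norm_div, norm_pow]
    have h33 : ‖(3 : ℂ)‖ = 3 := by simp
    rw [h33]
    calc 3 / ‖Complex.cosh (3 * π * v / 2 + (3 * θ / 4 : ℝ) * Complex.I)‖ ^ 2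
        ≤ 3 / (Real.cos (3 * T / 4) / 2 * E) ^ 2 := by
          apply div_le_div_of_nonneg_left (by norm_num) (by positivity)
          exact pow_le_pow_left₀ (by positivity) h3' 2
      _ = 12 / Real.cos (3 * T / 4) ^ 2 * Real.exp (-(π * |v|)) := by
          rw [Real.exp_neg, e3]
          field_simp
          norm_num
  have b5 := (norm_sub_le (1 / Complex.cosh (π * v / 2 + (3 * θ / 4 : ℝ) * Complex.I) ^ 2)
    (3 / Complex.cosh (3 * π * v / 2 + (3 * θ / 4 : ℝ) * Complex.I) ^ 2)).trans (add_le_add b1 b3)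
  calc 3 / 4 * (π / 2) * ‖1 / Complex.cosh (π * v / 2 + (3 * θ / 4 : ℝ) * Complex.I) ^ 2 -
      3 / Complex.cosh (3 * π * v / 2 + (3 * θ / 4 : ℝ) * Complex.I) ^ 2‖
      ≤ 3 / 4 * (π / 2) * (4 / Real.cos (3 * T / 4) ^ 2 * Real.exp (-(π * |v|)) +
        12 / Real.cos (3 * T / 4) ^ 2 * Real.exp (-(π * |v|))) := by
        apply mul_le_mul_of_nonneg_left b5 (by positivity)
    _ = 6 * π / Real.cos (3 * T / 4) ^ 2 * Real.exp (-(π * |v|)) := by
        ring
    _ ≤ 30 / Real.cos (3 * T / 4) ^ 2 * Real.exp (-|v|) := by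
        apply mul_le_mul _ (exp_pi_le v) (Real.exp_pos _).le (by positivity)
        apply div_le_div_of_nonneg_right _ (by positivity)
        have := Real.pi_lt_d2
        linarith

/-! ### the skeleton statements -/

/-- measurability for all parameters in the larger interval -/
theorem gf_cont' {θ : ℝ} (hθ : θ ∈ Set.Ioo (-(2 * π / 3)) (2 * π / 3)) :
    Continuous (gf θ) ∧ Continuous (hf θ) :=
  ⟨continuous_iff_continuousAt.mpr fun v => (gf_hasDerivAt_v hθ v).continuousAt,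
    continuous_iff_continuousAt.mpr fun v => (hf_hasDerivAt_v hθ v).continuousAt⟩

theorem gf_cont {θ T : ℝ} (hT : T < 2 * π / 3) (hθ : |θ| ≤ T) : Continuous (gf θ) :=
  (gf_cont' (mem_Ioo_of_big hT hθ)).1

theorem hf_cont {θ T : ℝ} (hT : T < 2 * π / 3) (hθ : |θ| ≤ T) : Continuous (hf θ) :=
  (gf_cont' (mem_Ioo_of_big hT hθ)).2

theorem c0_le_one (T : ℝ) : Real.cos (3 * T / 4) ≤ 1 := Real.cos_le_one _

theorem gf_decay {T : ℝ} (h0 : 0 ≤ T) (hT : T < 2 * π / 3) : ∃ M : ℝ, 0 < M ∧ ∀ θ : ℝ, |θ| ≤ T →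
    (∀ v, ‖gf θ v - 1‖ ≤ M * Real.exp (-|v|)) ∧
    (∀ v x, ‖gf θ v - gf θ x‖ ≤ M * |v - x| * (Real.exp (-|v|) + Real.exp (-|x|))) := by
  have h4 : 0 < Real.cos (3 * T / 4) := c0_pos (θ := T) hT (le_of_eq (abs_of_nonneg h0))
  have h5 := c0_le_one T
  refine ⟨3 * (30 / Real.cos (3 * T / 4) ^ 2), by positivity, ?_⟩
  intro θ hθ
  have hM : 2 / Real.cos (3 * T / 4) ≤ 30 / Real.cos (3 * T / 4) ^ 2 := by
    rw [div_le_div_iff₀ h4 (by positivity)]
    nlinarith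
  have hb : ∀ v, ‖gf θ v - 1‖ ≤ 30 / Real.cos (3 * T / 4) ^ 2 * Real.exp (-|v|) := fun v =>
    (gf_dec hT hθ v).trans (mul_le_mul_of_nonneg_right hM (Real.exp_pos _).le)
  constructor
  · intro v
    refine (hb v).trans (mul_le_mul_of_nonneg_right ?_ (Real.exp_pos _).le)
    have : 0 < 30 / Real.cos (3 * T / 4) ^ 2 := by positivity
    linarith
  · exact lip_of_deriv (fun v => gf_hasDerivAt_v (mem_Ioo_of_big hT hθ) v)
      (fun v => gd_bound hT hθ v) hb

theorem hf_decay {T : ℝ} (h0 : 0 ≤ T) (hT : T < 2 * π / 3) : ∃ M : ℝ, 0 < M ∧ ∀ θ : ℝ, |θ| ≤ T →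
    (∀ v, ‖hf θ v‖ ≤ M * Real.exp (-|v|)) ∧
    (∀ v x, ‖hf θ v - hf θ x‖ ≤ M * |v - x| * (Real.exp (-|v|) + Real.exp (-|x|))) := by
  have h4 : 0 < Real.cos (3 * T / 4) := c0_pos (θ := T) hT (le_of_eq (abs_of_nonneg h0))
  refine ⟨3 * (30 / Real.cos (3 * T / 4) ^ 2), by positivity, ?_⟩
  intro θ hθ
  have hM : 3 / Real.cos (3 * T / 4) ^ 2 ≤ 30 / Real.cos (3 * T / 4) ^ 2 := by
    apply div_le_div_of_nonneg_right (by norm_num) (by positivity)
  have hb : ∀ v, ‖hf θ v - 0‖ ≤ 30 / Real.cos (3 * T / 4) ^ 2 * Real.exp (-|v|) := fun v => by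
    rw [sub_zero]
    exact (hf_dec hT hθ v).trans (mul_le_mul_of_nonneg_right hM (Real.exp_pos _).le)
  constructor
  · intro v
    have hbv := hb v
    rw [sub_zero] at hbv
    refine hbv.trans (mul_le_mul_of_nonneg_right ?_ (Real.exp_pos _).le)
    have : 0 < 30 / Real.cos (3 * T / 4) ^ 2 := by positivity
    linarith
  · exact lip_of_deriv (fun v => hf_hasDerivAt_v (mem_Ioo_of_big hT hθ) v)
      (fun v => hd_bound hT hθ v) hb

/-- crude bound needed for differentiation under the integral sign near `[π/3, π/2]` -/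
theorem gh_bound {T : ℝ} (h0 : 0 ≤ T) (hT : T < 2 * π / 3) : ∃ M : ℝ, ∀ θ : ℝ, |θ| ≤ T → ∀ v,
    ‖gf θ v‖ ≤ M ∧ ‖gf θ v * hf θ v‖ ≤ M := by
  have h4 : 0 < Real.cos (3 * T / 4) := c0_pos (θ := T) hT (le_of_eq (abs_of_nonneg h0))
  have h5 := c0_le_one T
  set A := 1 + 2 / Real.cos (3 * T / 4) with hA
  set B := 3 / Real.cos (3 * T / 4) ^ 2 with hB
  have hA1 : 1 ≤ A := by
    have : 0 < 2 / Real.cos (3 * T / 4) := by positivity
    linarith
  have hB1 : 1 ≤ B := by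
    rw [hB, le_div_iff₀ (by positivity)]
    nlinarith
  refine ⟨A * B, fun θ hθ v => ?_⟩
  have he : Real.exp (-|v|) ≤ 1 := Real.exp_le_one_iff.mpr (by linarith [abs_nonneg v])
  have hg : ‖gf θ v‖ ≤ A := by
    have h1 := gf_dec hT hθ v
    have h2 : ‖gf θ v‖ ≤ ‖gf θ v - 1‖ + ‖(1 : ℂ)‖ := by
      have := norm_add_le (gf θ v - 1) 1
      simpa using this
    rw [norm_one] at h2
    have h3 : 2 / Real.cos (3 * T / 4) * Real.exp (-|v|) ≤ 2 / Real.cos (3 * T / 4) * 1 :=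
      mul_le_mul_of_nonneg_left he (by positivity)
    rw [hA]
    linarith
  have hh : ‖hf θ v‖ ≤ B := by
    have h1 := hf_dec hT hθ v
    have h3 : 3 / Real.cos (3 * T / 4) ^ 2 * Real.exp (-|v|) ≤
        3 / Real.cos (3 * T / 4) ^ 2 * 1 :=
      mul_le_mul_of_nonneg_left he (by positivity)
    rw [hB]
    linarith
  constructor
  · nlinarith
  · rw [norm_mul]
    exact mul_le_mul hg hh (norm_nonneg _) (by linarith)

theorem gf_deriv {θ : ℝ} (hθ : θ ∈ Set.Ioo (-(2 * π / 3)) (2 * π / 3)) (v : ℝ) :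
    HasDerivAt (fun s => gf s v) (gf θ v * hf θ v) θ := by
  have h1 := cosh1_ne θ v hθ
  have h3 := cosh3_ne θ v hθ
  have h : HasDerivAt (fun s : ℝ => (s : ℂ)) 1 θ := Complex.ofRealCLM.hasDerivAt
  have hb : ∀ c : ℂ, HasDerivAt (fun s : ℝ => (c + (3 * s / 4 : ℝ) * Complex.I : ℂ))
      (3 / 4 * Complex.I) θ := by
    intro c
    have h2 := (((h.const_mul (3 : ℂ)).div_const 4).mul_const Complex.I).const_add c
    rw [mul_one] at h2
    have e : (fun s : ℝ => (c + (3 * s / 4 : ℝ) * Complex.I : ℂ)) =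
      fun s : ℝ => (c + 3 * s / 4 * Complex.I : ℂ) := by
      ext s; push_cast; ring
    rw [e]
    exact h2
  have d1 := hb (π * v / 2)
  have d3 := hb (3 * π * v / 2)
  have D := (((rccosh d1).const_mul 2).mul_const (Complex.cosh (π * v))).div (rccosh d3) h3
  unfold gf hf
  refine D.congr_deriv ?_
  clear D d1 d3 hb
  have e34 : ((3 / 4 : ℝ) : ℂ) = 3 / 4 := by norm_num
  rw [e34]
  generalize Complex.cosh (π * v / 2 + (3 * θ / 4 : ℝ) * Complex.I) = C1 at *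
  generalize Complex.cosh (3 * π * v / 2 + (3 * θ / 4 : ℝ) * Complex.I) = C3 at *
  generalize Complex.sinh (π * v / 2 + (3 * θ / 4 : ℝ) * Complex.I) = S1
  generalize Complex.sinh (3 * π * v / 2 + (3 * θ / 4 : ℝ) * Complex.I) = S3
  field_simp

theorem cosh_re' (Y b : ℝ) :
    (Complex.cosh ((Y : ℂ) - (b : ℂ) * Complex.I)).re = Real.cosh Y * Real.cos b := by
  have := cosh_re Y (-b)
  rw [Real.cos_neg] at this
  rw [← this]
  push_cast
  congr 2
  ring

theorem cosh_im' (Y b : ℝ) :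
    (Complex.cosh ((Y : ℂ) - (b : ℂ) * Complex.I)).im = -(Real.sinh Y * Real.sin b) := by
  have := cosh_im Y (-b)
  rw [Real.sin_neg, mul_neg] at this
  rw [← this]
  push_cast
  congr 2
  ring

theorem gf_re' {θ : ℝ} (hθ : θ ∈ Set.Ioo (-(2 * π / 3)) (2 * π / 3)) (v : ℝ) :
    1 / 4 ≤ (gf θ v).re := by
  have h3 := cosh3_ne θ v hθ
  rw [gf_sub_one hθ]
  have e2 : (π * v / 2 - (3 * θ / 4 : ℝ) * Complex.I : ℂ) =
      ((π * v / 2 : ℝ) : ℂ) - ((3 * θ / 4 : ℝ) : ℂ) * Complex.I := by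
    push_cast; ring
  have e3 : (3 * π * v / 2 + (3 * θ / 4 : ℝ) * Complex.I : ℂ) =
      ((3 * (π * v / 2) : ℝ) : ℂ) + ((3 * θ / 4 : ℝ) : ℂ) * Complex.I := by
    push_cast; ring
  rw [e2, e3]
  rw [e3] at h3
  set y := π * v / 2
  set b := 3 * θ / 4
  rw [Complex.add_re, Complex.one_re, Complex.div_re, ← add_div]
  have hN : 0 < Complex.normSq (Complex.cosh (((3 * y : ℝ) : ℂ) + (b : ℂ) * Complex.I)) :=
    Complex.normSq_pos.mpr h3
  suffices h : -(3 / 4) ≤ ((Complex.cosh ((y : ℂ) - (b : ℂ) * Complex.I)).re *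
      (Complex.cosh (((3 * y : ℝ) : ℂ) + (b : ℂ) * Complex.I)).re +
      (Complex.cosh ((y : ℂ) - (b : ℂ) * Complex.I)).im *
      (Complex.cosh (((3 * y : ℝ) : ℂ) + (b : ℂ) * Complex.I)).im) /
      Complex.normSq (Complex.cosh (((3 * y : ℝ) : ℂ) + (b : ℂ) * Complex.I)) by
    linarith
  rw [le_div_iff₀ hN, Complex.normSq_apply, cosh_re', cosh_im', cosh_re, cosh_im,
    Real.cosh_three_mul, Real.sinh_three_mul]
  have hc := Real.cosh_sq y
  have hc1 := Real.one_le_cosh y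
  set c := Real.cosh y
  set s := Real.sinh y
  have hX : s ^ 2 = c ^ 2 - 1 := by linarith
  have hX0 : 0 ≤ s ^ 2 := sq_nonneg s
  have k1 : 0 ≤ Real.cos b ^ 2 * (c ^ 2 * (4 * c ^ 2 - 3) + 3 / 4 * (c ^ 2 * (4 * c ^ 2 - 3) ^ 2)) := by
    have : 0 ≤ 4 * c ^ 2 - 3 := by nlinarith
    positivity
  have k2 : 0 ≤ Real.sin b ^ 2 * (s ^ 2 * ((4 * s ^ 2 + 3) * (3 / 4 * (4 * s ^ 2 + 3) - 1))) := by
    have : 0 ≤ 3 / 4 * (4 * s ^ 2 + 3) - 1 := by nlinarith
    positivity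
  nlinarith [k1, k2]

theorem gf_bound' {θ : ℝ} (hθ : θ ∈ Set.Ioo (-(2 * π / 3)) (2 * π / 3)) (v : ℝ) : ‖gf θ v‖ ≤ 2 := by
  have h3 := cosh3_ne θ v hθ
  rw [gf_sub_one hθ]
  have e2 : (π * v / 2 - (3 * θ / 4 : ℝ) * Complex.I : ℂ) =
      ((π * v / 2 : ℝ) : ℂ) - ((3 * θ / 4 : ℝ) : ℂ) * Complex.I := by
    push_cast; ring
  have e3 : (3 * π * v / 2 + (3 * θ / 4 : ℝ) * Complex.I : ℂ) =
      ((3 * (π * v / 2) : ℝ) : ℂ) + ((3 * θ / 4 : ℝ) : ℂ) * Complex.I := by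
    push_cast; ring
  rw [e2, e3]
  rw [e3] at h3
  set y := π * v / 2
  set b := 3 * θ / 4
  refine (norm_add_le _ _).trans ?_
  rw [norm_one, norm_div]
  have hN : 0 < ‖Complex.cosh (((3 * y : ℝ) : ℂ) + (b : ℂ) * Complex.I)‖ := norm_pos_iff.mpr h3
  suffices h : ‖Complex.cosh ((y : ℂ) - (b : ℂ) * Complex.I)‖ ≤
      ‖Complex.cosh (((3 * y : ℝ) : ℂ) + (b : ℂ) * Complex.I)‖ by
    have := (div_le_one hN).mpr h
    linarith
  apply le_of_sq_le_sq _ hN.le
  rw [← Complex.normSq_eq_norm_sq, ← Complex.normSq_eq_norm_sq, Complex.normSq_apply,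
    Complex.normSq_apply, cosh_re', cosh_im', cosh_re, cosh_im,
    Real.cosh_three_mul, Real.sinh_three_mul]
  have hc := Real.cosh_sq y
  have hc1 := Real.one_le_cosh y
  set c := Real.cosh y
  set s := Real.sinh y
  have k1 : 0 ≤ Real.cos b ^ 2 * (c ^ 2 * ((4 * c ^ 2 - 3) ^ 2 - 1)) := by
    have : 1 ≤ 4 * c ^ 2 - 3 := by nlinarith
    have : 0 ≤ (4 * c ^ 2 - 3) ^ 2 - 1 := by nlinarith
    positivity
  have k2 : 0 ≤ Real.sin b ^ 2 * (s ^ 2 * ((4 * s ^ 2 + 3) ^ 2 - 1)) := by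
    have : 0 ≤ (4 * s ^ 2 + 3) ^ 2 - 1 := by nlinarith [sq_nonneg s]
    positivity
  nlinarith [k1, k2]

theorem gf_re {θ T : ℝ} (hT : T < 2 * π / 3) (hθ : |θ| ≤ T) (v : ℝ) : 1 / 4 ≤ (gf θ v).re :=
  gf_re' (mem_Ioo_of_big hT hθ) v

theorem gf_bound {θ T : ℝ} (hT : T < 2 * π / 3) (hθ : |θ| ≤ T) (v : ℝ) : ‖gf θ v‖ ≤ 2 :=
  gf_bound' (mem_Ioo_of_big hT hθ) v

/-! ### the integral of `hf` -/

theorem exp_half_slit {b : ℝ} (hb : |b| < π / 2) :
    Complex.exp (b * Complex.I) / 2 ∈ Complex.slitPlane := by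
  left
  have h1 : (Complex.exp (b * Complex.I) / 2).re = Real.cos b / 2 := by
    rw [Complex.exp_mul_I, ← Complex.ofReal_cos, ← Complex.ofReal_sin]
    have : (((Real.cos b : ℝ) : ℂ) + ((Real.sin b : ℝ) : ℂ) * Complex.I) / 2 =
      ((Real.cos b / 2 : ℝ) : ℂ) + ((Real.sin b / 2 : ℝ) : ℂ) * Complex.I := by
      push_cast; ring
    rw [this]
    simp only [Complex.add_re, Complex.ofReal_re, Complex.mul_re, Complex.ofReal_im,
      Complex.I_re, Complex.I_im]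
    ring
  rw [h1]
  have := Real.cos_pos_of_mem_Ioo (abs_lt.mp hb)
  linarith

theorem log_exp_half {b : ℝ} (hb : |b| < π / 2) :
    Complex.log (Complex.exp (b * Complex.I) / 2) = b * Complex.I - (Real.log 2 : ℝ) := by
  have h2 : Complex.exp (b * Complex.I) / 2 = Complex.exp (b * Complex.I - (Real.log 2 : ℝ)) := by
    rw [Complex.exp_sub, ← Complex.ofReal_exp, Real.exp_log (by norm_num)]
    norm_num
  have him : (b * Complex.I - (Real.log 2 : ℝ) : ℂ).im = b := by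
    simp only [Complex.sub_im, Complex.mul_im, Complex.ofReal_re, Complex.I_im, mul_one,
      Complex.ofReal_im, Complex.I_re, mul_zero, add_zero, sub_zero]
  obtain ⟨hb1, hb2⟩ := abs_lt.mp hb
  have := Real.pi_pos
  rw [h2, Complex.log_exp]
  · rw [him]; linarith
  · rw [him]; linarith

theorem log_cosh_eq {b : ℝ} (hb : |b| < π / 2) (y : ℝ) :
    Complex.log (Complex.cosh ((y : ℂ) + b * Complex.I)) =
      y + Complex.log ((Complex.exp (b * Complex.I) +
        Complex.exp (-(2 * y) - b * Complex.I)) / 2) := by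
  have hne : Complex.cosh ((y : ℂ) + b * Complex.I) ≠ 0 := by
    intro h
    have h1 := le_norm_cosh y b
    rw [h, norm_zero] at h1
    have h2 := mul_pos (Real.cosh_pos y) (Real.cos_pos_of_mem_Ioo (abs_lt.mp hb))
    linarith
  have e : Complex.cosh ((y : ℂ) + b * Complex.I) = ((Real.exp y : ℝ) : ℂ) *
      ((Complex.exp (b * Complex.I) + Complex.exp (-(2 * y) - b * Complex.I)) / 2) := by
    rw [Complex.cosh, Complex.ofReal_exp, mul_div_assoc', mul_add, ← Complex.exp_add,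
      ← Complex.exp_add]
    congr 3
    ring
  rw [e, Complex.log_ofReal_mul (Real.exp_pos y), Real.log_exp]
  intro h0
  rw [h0, mul_zero] at e
  exact hne e

theorem tendsto_log_q {b : ℝ} (hb : |b| < π / 2) {c : ℝ} (hc : 0 < c) :
    Tendsto (fun v : ℝ => Complex.log ((Complex.exp (b * Complex.I) +
        Complex.exp (-(2 * ((c * v : ℝ) : ℂ)) - b * Complex.I)) / 2)) atTop
      (𝓝 (Complex.log (Complex.exp (b * Complex.I) / 2))) := by
  have h1 : Tendsto (fun v : ℝ => (Complex.exp (b * Complex.I) +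
        Complex.exp (-(2 * ((c * v : ℝ) : ℂ)) - b * Complex.I)) / 2) atTop
      (𝓝 (Complex.exp (b * Complex.I) / 2)) := by
    have h2 : Tendsto (fun v : ℝ => Complex.exp (-(2 * ((c * v : ℝ) : ℂ)) - b * Complex.I)) atTop
        (𝓝 0) := by
      rw [tendsto_zero_iff_norm_tendsto_zero]
      have : (fun v : ℝ => ‖Complex.exp (-(2 * ((c * v : ℝ) : ℂ)) - b * Complex.I)‖) =
          fun v : ℝ => Real.exp (-(2 * (c * v))) := by
        ext v
        rw [Complex.norm_exp]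
        congr 1
        simp
      rw [this]
      apply Real.tendsto_exp_atBot.comp
      apply tendsto_neg_atTop_atBot.comp
      apply Tendsto.const_mul_atTop (by norm_num : (0:ℝ) < 2)
      exact Tendsto.const_mul_atTop hc tendsto_id
    have h3 := (h2.const_add (Complex.exp (b * Complex.I))).div_const 2
    rw [add_zero] at h3
    exact h3
  exact (continuousAt_clog (exp_half_slit hb)).tendsto.comp h1

/-- the antiderivative with general `b` -/
noncomputable def Hb (b v : ℝ) : ℂ :=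
  (3 / 4 : ℝ) * Complex.I * ((2 / π : ℝ) * Complex.log (Complex.cosh (((π / 2 * v : ℝ) : ℂ) + b * Complex.I)) -
    (2 / (3 * π) : ℝ) * Complex.log (Complex.cosh (((3 * π / 2 * v : ℝ) : ℂ) + b * Complex.I)))

theorem Hb_tendsto {b : ℝ} (hb : |b| < π / 2) :
    Tendsto (Hb b) atTop (𝓝 (Complex.I / π * (b * Complex.I - (Real.log 2 : ℝ)))) := by
  have hpi := Real.pi_pos
  have e : Hb b = fun v : ℝ => (3 / 4 : ℝ) * Complex.I * ((2 / π : ℝ) *
      Complex.log ((Complex.exp (b * Complex.I) +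
        Complex.exp (-(2 * ((π / 2 * v : ℝ) : ℂ)) - b * Complex.I)) / 2) -
      (2 / (3 * π) : ℝ) * Complex.log ((Complex.exp (b * Complex.I) +
        Complex.exp (-(2 * ((3 * π / 2 * v : ℝ) : ℂ)) - b * Complex.I)) / 2)) := by
    ext v
    unfold Hb
    rw [log_cosh_eq hb, log_cosh_eq hb]
    have hp : (π : ℂ) ≠ 0 := by exact_mod_cast hpi.ne'
    push_cast
    field_simp
    ring
  rw [e]
  have h1 := (tendsto_log_q hb (c := π / 2) (by positivity)).const_mul ((2 / π : ℝ) : ℂ)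
  have h3 := (tendsto_log_q hb (c := 3 * π / 2) (by positivity)).const_mul ((2 / (3 * π) : ℝ) : ℂ)
  have h := (h1.sub h3).const_mul ((3 / 4 : ℝ) * Complex.I : ℂ)
  rw [log_exp_half hb] at h
  convert h using 2
  have hp : (π : ℂ) ≠ 0 := by exact_mod_cast hpi.ne'
  push_cast
  field_simp
  ring

theorem Hb_neg (b v : ℝ) : Hb b (-v) = Hb (-b) v := by
  unfold Hb
  congr 2
  · congr 2
    rw [← Complex.cosh_neg]
    congr 1
    push_cast
    ring
  · congr 2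
    rw [← Complex.cosh_neg]
    congr 1
    push_cast
    ring

theorem Hb_hasDerivAt {θ : ℝ} (hθ : θ ∈ Set.Ioo (-(2 * π / 3)) (2 * π / 3)) (v : ℝ) :
    HasDerivAt (Hb (3 * θ / 4)) (hf θ v) v := by
  have hpi := Real.pi_pos
  have hp : (π : ℂ) ≠ 0 := by exact_mod_cast hpi.ne'
  have h1 := cosh1_ne θ v hθ
  have h3 := cosh3_ne θ v hθ
  have d1 := hd_arg1 ((3 * θ / 4 : ℝ) * Complex.I) v
  have d3 := hd_arg3 ((3 * θ / 4 : ℝ) * Complex.I) v
  have s1 : Complex.cosh (π * v / 2 + (3 * θ / 4 : ℝ) * Complex.I) ∈ Complex.slitPlane := by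
    left
    rw [arg1, cosh_re]
    exact mul_pos (Real.cosh_pos _) (cosb_pos hθ)
  have s3 : Complex.cosh (3 * π * v / 2 + (3 * θ / 4 : ℝ) * Complex.I) ∈ Complex.slitPlane := by
    left
    rw [arg3, cosh_re]
    exact mul_pos (Real.cosh_pos _) (cosb_pos hθ)
  have e : Hb (3 * θ / 4) = fun v : ℝ => (3 / 4 : ℝ) * Complex.I * ((2 / π : ℝ) *
      Complex.log (Complex.cosh (π * v / 2 + (3 * θ / 4 : ℝ) * Complex.I)) -
    (2 / (3 * π) : ℝ) * Complex.log (Complex.cosh (3 * π * v / 2 + (3 * θ / 4 : ℝ) * Complex.I))) := by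
    ext v
    unfold Hb
    rw [arg1, arg3]
    congr 4
    · congr 2
      push_cast; ring
    · congr 2
      push_cast; ring
  rw [e]
  have l1 := (rccosh d1).clog_real s1
  have l3 := (rccosh d3).clog_real s3
  have D := ((l1.const_mul ((2 / π : ℝ) : ℂ)).sub (l3.const_mul ((2 / (3 * π) : ℝ) : ℂ))).const_mul
    ((3 / 4 : ℝ) * Complex.I : ℂ)
  refine D.congr_deriv ?_
  unfold hf
  clear D l1 l3 d1 d3 e s1 s3
  generalize Complex.cosh (π * v / 2 + (3 * θ / 4 : ℝ) * Complex.I) = C1 at *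
  generalize Complex.cosh (3 * π * v / 2 + (3 * θ / 4 : ℝ) * Complex.I) = C3 at *
  generalize Complex.sinh (π * v / 2 + (3 * θ / 4 : ℝ) * Complex.I) = S1
  generalize Complex.sinh (3 * π * v / 2 + (3 * θ / 4 : ℝ) * Complex.I) = S3
  push_cast
  field_simp

theorem integrable_exp_abs {a : ℝ} (ha : 0 < a) :
    Integrable (fun v : ℝ => Real.exp (-(a * |v|))) := by
  rw [← integrableOn_univ, ← Set.Iic_union_Ioi (a := (0 : ℝ))]
  apply IntegrableOn.union
  · refine (integrableOn_exp_mul_Iic ha 0).congr_fun ?_ measurableSet_Iic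
    intro v hv
    simp only
    rw [abs_of_nonpos hv]
    congr 1
    ring
  · refine (integrableOn_exp_mul_Ioi (neg_lt_zero.mpr ha) 0).congr_fun ?_ measurableSet_Ioi
    intro v hv
    simp only
    rw [abs_of_pos hv]
    congr 1
    ring

theorem integrable_exp_neg_abs : Integrable (fun v : ℝ => Real.exp (-|v|)) := by
  simpa using integrable_exp_abs one_pos

theorem hf_integrable {θ T : ℝ} (hT : T < 2 * π / 3) (hθ : |θ| ≤ T) : Integrable (hf θ) := by
  obtain ⟨M, hM, H⟩ := hf_decay ((abs_nonneg θ).trans hθ) hT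
  exact (integrable_exp_neg_abs.const_mul M).mono' (hf_cont hT hθ).aestronglyMeasurable
    (Eventually.of_forall (H θ hθ).1)

theorem hf_integral {θ T : ℝ} (hT : T < 2 * π / 3) (hθ : |θ| ≤ T) :
    ∫ v, hf θ v = ((-(3 * θ / (2 * π)) : ℝ) : ℂ) := by
  have hpi := Real.pi_pos
  have hp : (π : ℂ) ≠ 0 := by exact_mod_cast hpi.ne'
  have hθ' := mem_Ioo_of_big hT hθ
  have hb : |3 * θ / 4| < π / 2 := by
    rw [abs_lt]
    constructor
    · linarith [hθ'.1]
    · linarith [hθ'.2]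
  have hb' : |-(3 * θ / 4)| < π / 2 := by rwa [abs_neg]
  have t1 := Hb_tendsto hb
  have t2 : Tendsto (Hb (3 * θ / 4)) atBot
      (𝓝 (Complex.I / π * ((-(3 * θ / 4) : ℝ) * Complex.I - (Real.log 2 : ℝ)))) := by
    have h := (Hb_tendsto hb').comp tendsto_neg_atBot_atTop
    refine h.congr (fun v => ?_)
    simp only [Function.comp]
    rw [← Hb_neg, neg_neg]
  rw [integral_of_hasDerivAt_of_tendsto (fun v => Hb_hasDerivAt hθ' v) (hf_integrable hT hθ) t2 t1]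
  push_cast
  field_simp
  linear_combination (12 * θ : ℂ) * Complex.I_sq

end OneArmW
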