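import Pool.Agent.Helper82.OneArm.Shift
import Pool.Agent.Helper82.OneArmW.GFun

/-! Module ShiftW: `hk L θ` is a constant times the compression determinant, for all
`θ ∈ [0, π/2]` (loop weights `w = 2 cos θ ∈ [0, 2]`). Copied from helper66's module Shift. -/

open Real MeasureTheory Filter Topology

namespace OneArmW

open OneArm

theorem mom_shift {θ : ℝ} (hθ : θ ∈ Set.Icc (0 : ℝ) (π / 2)) (k : ℕ) :
    mom θ k = (3 / 2 : ℝ) ^ (k + 1) / 2 *
      ∫ u : ℝ, gf θ u * wt u * ((u : ℂ) + (θ / (2 * π) : ℝ) * Complex.I) ^ k := by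
  have hp := Real.pi_pos
  have hs0 : 0 ≤ θ / (2 * π) := by
    have : 0 ≤ θ := by linarith [hθ.1]
    positivity
  have hs1 : θ / (2 * π) ≤ 1 / 4 := by
    rw [div_le_iff₀ (by positivity)]
    linarith [hθ.2]
  rw [mom_eq_shF, shF_shift θ k hs0 hs1]
  have h3 : (fun u : ℝ => gf θ u * wt u * ((u : ℂ) + (θ / (2 * π) : ℝ) * Complex.I) ^ k) =
      fun u : ℝ => 2 * shF θ k ((u : ℂ) + ((θ / (2 * π) : ℝ) : ℂ) * Complex.I) := by
    funext u
    exact gf_wt_eq θ k u
  rw [h3, integral_const_mul]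
  push_cast
  ring

/-! ### the triangular change of basis -/


theorem me_expand {θ : ℝ} (hθ : θ ∈ Set.Icc (0 : ℝ) (π / 2)) {L : ℕ} (j k : Fin L) :
    me (gf θ) j k = ∑ a : Fin L, ∑ b : Fin L,
      tri (-((θ / (2 * π) : ℝ) * Complex.I)) j a * tri (-((θ / (2 * π) : ℝ) * Complex.I)) k b *
        ∫ u : ℝ, gf θ u * wt u *
          ((u : ℂ) + (θ / (2 * π) : ℝ) * Complex.I) ^ ((a : ℕ) + (b : ℕ)) := by
  have hp := Real.pi_pos
  have hs0 : 0 ≤ θ / (2 * π) := by
    have : 0 ≤ θ := by linarith [hθ.1]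
    positivity
  have hs1 : θ / (2 * π) ≤ 1 / 4 := by
    rw [div_le_iff₀ (by positivity)]
    linarith [hθ.2]
  have hint : ∀ n : ℕ, Integrable (fun u : ℝ => gf θ u * wt u *
      ((u : ℂ) + (θ / (2 * π) : ℝ) * Complex.I) ^ n) := by
    intro n
    have h := (shF_integrable θ n hs0 hs1).const_mul 2
    refine h.congr ?_
    filter_upwards with u
    exact (gf_wt_eq θ n u).symm
  unfold me
  have h1 : ∀ u : ℝ, gf θ u * ((mp j u : ℝ) : ℂ) * ((mp k u : ℝ) : ℂ) * ((wt u : ℝ) : ℂ) =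
      ∑ a : Fin L, ∑ b : Fin L,
        tri (-((θ / (2 * π) : ℝ) * Complex.I)) j a * tri (-((θ / (2 * π) : ℝ) * Complex.I)) k b *
          (gf θ u * wt u * ((u : ℂ) + (θ / (2 * π) : ℝ) * Complex.I) ^ ((a : ℕ) + (b : ℕ))) := by
    intro u
    rw [mp_expand (-((θ / (2 * π) : ℝ) * Complex.I)) j u,
      mp_expand (-((θ / (2 * π) : ℝ) * Complex.I)) k u]
    have e : gf θ u * (∑ i : Fin L, tri (-((θ / (2 * π) : ℝ) * Complex.I)) j i *
          ((u : ℂ) - -((θ / (2 * π) : ℝ) * Complex.I)) ^ (i : ℕ)) *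
        (∑ i : Fin L, tri (-((θ / (2 * π) : ℝ) * Complex.I)) k i *
          ((u : ℂ) - -((θ / (2 * π) : ℝ) * Complex.I)) ^ (i : ℕ)) * ((wt u : ℝ) : ℂ) =
        (gf θ u * wt u) * ((∑ i : Fin L, tri (-((θ / (2 * π) : ℝ) * Complex.I)) j i *
          ((u : ℂ) - -((θ / (2 * π) : ℝ) * Complex.I)) ^ (i : ℕ)) *
        (∑ i : Fin L, tri (-((θ / (2 * π) : ℝ) * Complex.I)) k i *
          ((u : ℂ) - -((θ / (2 * π) : ℝ) * Complex.I)) ^ (i : ℕ))) := by ring
    rw [e, Finset.sum_mul_sum, Finset.mul_sum]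
    apply Finset.sum_congr rfl
    intro a _
    rw [Finset.mul_sum]
    apply Finset.sum_congr rfl
    intro b _
    rw [sub_neg_eq_add, pow_add]
    ring
  calc (∫ u : ℝ, gf θ u * ((mp j u : ℝ) : ℂ) * ((mp k u : ℝ) : ℂ) * ((wt u : ℝ) : ℂ)) =
      ∫ u : ℝ, ∑ a : Fin L, ∑ b : Fin L,
        tri (-((θ / (2 * π) : ℝ) * Complex.I)) j a * tri (-((θ / (2 * π) : ℝ) * Complex.I)) k b *
          (gf θ u * wt u * ((u : ℂ) + (θ / (2 * π) : ℝ) * Complex.I) ^ ((a : ℕ) + (b : ℕ))) := by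
        congr 1
        funext u
        exact h1 u
    _ = _ := by
        rw [integral_finsetSum _ (fun a _ => integrable_finsetSum _
          (fun b _ => (hint _).const_mul _))]
        apply Finset.sum_congr rfl
        intro a _
        rw [integral_finsetSum _ (fun b _ => (hint _).const_mul _)]
        apply Finset.sum_congr rfl
        intro b _
        rw [integral_const_mul]


theorem cmat_fact {θ : ℝ} (hθ : θ ∈ Set.Icc (0 : ℝ) (π / 2)) (L : ℕ) :
    cmat L (gf θ) = triM (-((θ / (2 * π) : ℝ) * Complex.I)) L *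
      (Matrix.of fun a b : Fin L => ∫ u : ℝ, gf θ u * wt u *
          ((u : ℂ) + (θ / (2 * π) : ℝ) * Complex.I) ^ ((a : ℕ) + (b : ℕ))) *
      (triM (-((θ / (2 * π) : ℝ) * Complex.I)) L).transpose := by
  ext j k
  rw [cmat, me_expand hθ, Matrix.mul_apply]
  simp only [Matrix.mul_apply, Matrix.transpose_apply, triM, Matrix.of_apply, Finset.sum_mul]
  rw [Finset.sum_comm]
  apply Finset.sum_congr rfl
  intro a _
  apply Finset.sum_congr rfl
  intro b _
  ring


theorem hk_eq (L : ℕ) : ∃ κ : ℂ, κ ≠ 0 ∧ ∀ θ ∈ Set.Icc (0 : ℝ) (π / 2),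
    hk L θ = κ * (cmat L (gf θ)).det := by
  set P : ℂ := ∏ l : Fin L, (2 ^ (l : ℕ) / ((l : ℕ).factorial : ℂ)) with hP
  have hP0 : P ≠ 0 := by
    rw [hP, Finset.prod_ne_zero_iff]
    intro l _
    have : ((l : ℕ).factorial : ℂ) ≠ 0 := by exact_mod_cast (Nat.factorial_pos _).ne'
    exact div_ne_zero (pow_ne_zero _ two_ne_zero) this
  set Q : ℂ := ∏ i : Fin L, ((3 / 2 : ℝ) : ℂ) ^ (i : ℕ) with hQ
  have hQ0 : Q ≠ 0 := by
    rw [hQ, Finset.prod_ne_zero_iff]
    intro i _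
    apply pow_ne_zero
    norm_num
  refine ⟨Q * Q * (3 / 4 : ℂ) ^ L / (P * P), ?_, ?_⟩
  · apply div_ne_zero
    · apply mul_ne_zero (mul_ne_zero hQ0 hQ0)
      apply pow_ne_zero
      norm_num
    · exact mul_ne_zero hP0 hP0
  · intro θ hθ
    set M : Matrix (Fin L) (Fin L) ℂ := Matrix.of fun a b : Fin L => ∫ u : ℝ, gf θ u * wt u *
          ((u : ℂ) + (θ / (2 * π) : ℝ) * Complex.I) ^ ((a : ℕ) + (b : ℕ)) with hM
    have h1 : (cmat L (gf θ)).det = P * M.det * P := by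
      rw [cmat_fact hθ L, Matrix.det_mul, Matrix.det_mul, Matrix.det_transpose, triM_det]
    have h2 : hk L θ = Q * Q * (3 / 4 : ℂ) ^ L * M.det := by
      unfold hk
      have e : (Matrix.of fun i j : Fin L => mom θ ((i : ℕ) + (j : ℕ))) =
          Matrix.diagonal (fun i : Fin L => ((3 / 2 : ℝ) : ℂ) ^ (i : ℕ)) *
            ((3 / 4 : ℂ) • M) *
          Matrix.diagonal (fun i : Fin L => ((3 / 2 : ℝ) : ℂ) ^ (i : ℕ)) := by
        ext i j
        rw [Matrix.mul_diagonal, Matrix.diagonal_mul]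
        simp only [Matrix.of_apply, Matrix.smul_apply, smul_eq_mul, hM]
        rw [mom_shift hθ, pow_succ, pow_add]
        push_cast
        ring
      rw [e, Matrix.det_mul, Matrix.det_mul, Matrix.det_diagonal, Matrix.det_smul,
        Fintype.card_fin]
      ring
    rw [h1, h2]
    field_simp


end OneArmW
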