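import Pool.Agent.Helper82.OneArmW.Curtiss

/-! Central limit theorem for a variable whose exponential moments behave like
`E[e^{s m}] = exp (Λ(s) ℓ + O(|θ(s) - π/3|))`, `Λ(s) = -(3/4) (θ(s)^2/π^2 - 1/9)`, `2 cos θ(s) = e^s`. -/

open Real MeasureTheory Filter Topology ProbabilityTheory

namespace OneArmW

/-- `2 cos (th s) = e^s` -/
noncomputable def th (s : ℝ) : ℝ := Real.arccos (Real.exp s / 2)

/-- the rate function of the exponential moments -/
noncomputable def Lam (s : ℝ) : ℝ := -(3 / 4 * (th s ^ 2 / π ^ 2 - 1 / 9))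

/-- derivative of `Lam` -/
noncomputable def Lam1 (s : ℝ) : ℝ :=
  3 / (2 * π ^ 2) * (th s * ((Real.exp s / 2) / Real.sqrt (1 - (Real.exp s / 2) ^ 2)))

/-- the mean constant `1/(2 √3 π)` -/
noncomputable def nuM : ℝ := 1 / (2 * Real.sqrt 3 * π)

/-- the variance constant `2/(3 √3 π) - 1/(2 π^2)` -/
noncomputable def nuV : ℝ := 2 / (3 * Real.sqrt 3 * π) - 1 / (2 * π ^ 2)

theorem th_zero : th 0 = π / 3 := by
  unfold th
  rw [Real.exp_zero, ← Real.cos_pi_div_three]
  have := Real.pi_pos
  exact Real.arccos_cos (by positivity) (by linarith)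

theorem Lam_zero : Lam 0 = 0 := by
  unfold Lam
  rw [th_zero]
  have := Real.pi_pos
  field_simp
  norm_num

theorem half_exp_lt {s : ℝ} (hs : s < Real.log 2) : Real.exp s / 2 < 1 := by
  have h : Real.exp s < 2 := by
    rw [← Real.exp_log (show (0 : ℝ) < 2 by norm_num)]
    exact Real.exp_lt_exp.mpr hs
  linarith

theorem th_hasDerivAt {s : ℝ} (hs : s < Real.log 2) :
    HasDerivAt th (-((Real.exp s / 2) / Real.sqrt (1 - (Real.exp s / 2) ^ 2))) s := by
  have h1 := half_exp_lt hs
  have h0 : 0 < Real.exp s / 2 := by positivity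
  have hd : HasDerivAt (fun x => Real.exp x / 2) (Real.exp s / 2) s := (Real.hasDerivAt_exp s).div_const 2
  have h2 := (Real.hasDerivAt_arccos (x := Real.exp s / 2) (by linarith) (by linarith)).comp s hd
  refine h2.congr_deriv ?_
  ring

theorem Lam_hasDerivAt {s : ℝ} (hs : s < Real.log 2) : HasDerivAt Lam (Lam1 s) s := by
  have h := th_hasDerivAt hs
  have h2 : HasDerivAt (fun s => -(3 / 4 * (th s ^ 2 / π ^ 2 - 1 / 9)))
      (-(3 / 4 * ((2 * th s * (-((Real.exp s / 2) / Real.sqrt (1 - (Real.exp s / 2) ^ 2)))) / π ^ 2))) s := by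
    have h3 : HasDerivAt (fun s => th s ^ 2)
        (2 * th s * (-((Real.exp s / 2) / Real.sqrt (1 - (Real.exp s / 2) ^ 2)))) s := by
      have := h.fun_pow 2
      simpa using this
    exact (((h3.div_const _).sub_const _).const_mul _).neg
  refine h2.congr_deriv ?_
  unfold Lam1
  have := Real.pi_pos
  field_simp
  ring

theorem sqrt34 : Real.sqrt (1 - (1 / 2 : ℝ) ^ 2) = Real.sqrt 3 / 2 := by
  rw [show (1 - (1 / 2 : ℝ) ^ 2) = 3 / 4 by norm_num, Real.sqrt_div (by norm_num),
    show (4 : ℝ) = 2 ^ 2 by norm_num, Real.sqrt_sq (by norm_num)]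

theorem Lam1_zero : Lam1 0 = nuM := by
  unfold Lam1 nuM
  rw [th_zero, Real.exp_zero, sqrt34]
  have := Real.pi_pos
  have h3 : 0 < Real.sqrt 3 := by positivity
  field_simp

theorem Lam1_hasDerivAt_zero : HasDerivAt Lam1 nuV 0 := by
  have hl : (0 : ℝ) < Real.log 2 := Real.log_pos (by norm_num)
  have h1 := th_hasDerivAt hl
  have hd : HasDerivAt (fun x => Real.exp x / 2) (Real.exp 0 / 2) 0 :=
    (Real.hasDerivAt_exp 0).div_const 2
  have hpos : (0 : ℝ) < 1 - (Real.exp 0 / 2) ^ 2 := by
    rw [Real.exp_zero]; norm_num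
  have hq : HasDerivAt (fun x => 1 - (Real.exp x / 2) ^ 2)
      (-(2 * (Real.exp 0 / 2) * (Real.exp 0 / 2))) 0 := by
    have h2 : HasDerivAt (fun x => (Real.exp x / 2) ^ 2) (2 * (Real.exp 0 / 2) * (Real.exp 0 / 2)) 0 := by
      have := hd.fun_pow 2
      simpa using this
    exact h2.const_sub 1
  have hs := hq.sqrt hpos.ne'
  have hsne : Real.sqrt (1 - (Real.exp 0 / 2) ^ 2) ≠ 0 := (Real.sqrt_pos.mpr hpos).ne'
  have hc := hd.div hs hsne
  have D := (h1.mul hc).const_mul (3 / (2 * π ^ 2))
  have e : Lam1 = fun s => 3 / (2 * π ^ 2) *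
      (th s * ((Real.exp s / 2) / Real.sqrt (1 - (Real.exp s / 2) ^ 2))) := by
    funext s; rfl
  rw [e]
  refine D.congr_deriv ?_
  simp only [Pi.div_apply]
  rw [th_zero, Real.exp_zero, sqrt34]
  unfold nuV
  have hp := Real.pi_pos
  have h3 : 0 < Real.sqrt 3 := by positivity
  have h33 : Real.sqrt 3 ^ 2 = 3 := Real.sq_sqrt (by norm_num)
  field_simp
  rw [h33]
  ring_nf

/-- second order expansion -/
theorem Lam_taylor : Tendsto (fun s => (Lam s - nuM * s) / s ^ 2) (𝓝[≠] 0) (𝓝 (nuV / 2)) := by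
  have hl : (0 : ℝ) < Real.log 2 := Real.log_pos (by norm_num)
  have hev : ∀ᶠ s in 𝓝[≠] (0 : ℝ), s < Real.log 2 :=
    (eventually_lt_nhds hl).filter_mono nhdsWithin_le_nhds
  have hLc : ContinuousAt Lam 0 := (Lam_hasDerivAt hl).continuousAt
  refine HasDerivAt.lhopital_zero_nhdsNE (f := fun s => Lam s - nuM * s) (g := fun s => s ^ 2)
    (f' := fun s => Lam1 s - nuM) (g' := fun s => 2 * s) ?_ ?_ ?_ ?_ ?_ ?_
  · filter_upwards [hev] with s hs
    have h2 : HasDerivAt (fun s => nuM * s) nuM s := by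
      simpa using (hasDerivAt_id s).const_mul nuM
    exact (Lam_hasDerivAt hs).sub h2
  · refine Eventually.of_forall fun s => ?_
    simpa using hasDerivAt_pow 2 s
  · filter_upwards [self_mem_nhdsWithin] with s hs
    exact mul_ne_zero two_ne_zero hs
  · have h1 : ContinuousAt (fun s => Lam s - nuM * s) 0 := hLc.sub (by fun_prop)
    have h2 := h1.tendsto.mono_left (nhdsWithin_le_nhds (s := {0}ᶜ))
    simpa [Lam_zero] using h2
  · have h1 : ContinuousAt (fun s : ℝ => s ^ 2) 0 := by fun_prop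
    have h2 := h1.tendsto.mono_left (nhdsWithin_le_nhds (s := {0}ᶜ))
    simpa using h2
  · have h := hasDerivAt_iff_tendsto_slope.mp Lam1_hasDerivAt_zero
    have h2 := h.div_const 2
    refine h2.congr' ?_
    filter_upwards [self_mem_nhdsWithin] with s hs
    rw [slope_def_field, Lam1_zero]
    have hs0 : s ≠ 0 := hs
    field_simp
    ring

theorem nuV_pos : 0 < nuV := by
  unfold nuV
  have hp := Real.pi_pos
  have hp3 := Real.pi_gt_three
  have h3 : 0 < Real.sqrt 3 := by positivity
  have h33 : Real.sqrt 3 ^ 2 = 3 := Real.sq_sqrt (by norm_num)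
  have h4 : Real.sqrt 3 < 2 := by
    nlinarith
  rw [sub_pos, div_lt_div_iff₀ (by positivity) (by positivity)]
  nlinarith [mul_pos hp h3]

/-- the limiting variance -/
noncomputable def nuV' : NNReal := ⟨nuV, nuV_pos.le⟩

/-- the limit law -/
noncomputable def gaussP : ProbabilityMeasure ℝ := ⟨gaussianReal 0 nuV', inferInstance⟩

theorem gaussP_coe : (gaussP : Measure ℝ) = gaussianReal 0 nuV' := rfl

/-- CLT from exponential moments -/
theorem nest_clt {ρ : ℕ → ProbabilityMeasure ℝ} {ℓ : ℕ → ℝ} (hℓ : Tendsto ℓ atTop atTop)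
    (hint : ∀ n t, Integrable (fun x => Real.exp (t * x)) (ρ n : Measure ℝ)) {C : ℝ}
    (hpos : ∀ᶠ n in atTop, ∀ s ≤ Real.log 2,
      |Real.log (∫ x, Real.exp (s * x) ∂(ρ n : Measure ℝ)) - Lam s * ℓ n| ≤ C * |th s - π / 3|) :
    Tendsto (fun n => (ρ n).map (f := fun x => (x - nuM * ℓ n) / Real.sqrt (ℓ n))
      (by fun_prop)) atTop
      (𝓝 gaussP) := by
  have hl : (0 : ℝ) < Real.log 2 := Real.log_pos (by norm_num)
  have hexp : ∀ n (t x : ℝ), Real.exp (t * ((x - nuM * ℓ n) / Real.sqrt (ℓ n))) =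
      Real.exp (-(t * nuM * ℓ n / Real.sqrt (ℓ n))) * Real.exp (t / Real.sqrt (ℓ n) * x) := by
    intro n t x
    rw [← Real.exp_add]
    congr 1
    ring
  apply curtiss
  · intro n t
    rw [ProbabilityMeasure.toMeasure_map, integrable_map_measure (by fun_prop) (by fun_prop)]
    refine (((hint n (t / Real.sqrt (ℓ n))).const_mul
      (Real.exp (-(t * nuM * ℓ n / Real.sqrt (ℓ n)))))).congr ?_
    refine Eventually.of_forall fun x => ?_
    simp only [Function.comp]
    rw [hexp]
  · intro t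
    rw [gaussP_coe]
    exact integrable_exp_mul_gaussianReal t
  · intro t
    have hG : ∫ x, Real.exp (t * x) ∂(gaussP : Measure ℝ) = Real.exp (t ^ 2 * (nuV / 2)) := by
      have h := mgf_gaussianReal (p := gaussianReal 0 nuV') (X := id) (μ := 0) (v := nuV')
        (by simp) t
      have h2 : mgf id (gaussianReal 0 nuV') t = ∫ x, Real.exp (t * x) ∂(gaussianReal 0 nuV') := rfl
      rw [gaussP_coe, ← h2, h]
      congr 1
      have : ((nuV' : NNReal) : ℝ) = nuV := rfl
      rw [this]
      ring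
    rw [hG]
    -- the moments
    have hmom : ∀ n, ∫ x, Real.exp (t * x) ∂(((ρ n).map
        (f := fun x => (x - nuM * ℓ n) / Real.sqrt (ℓ n)) (by fun_prop) : ProbabilityMeasure ℝ) :
          Measure ℝ) =
        Real.exp (-(t * nuM * ℓ n / Real.sqrt (ℓ n))) *
          ∫ x, Real.exp (t / Real.sqrt (ℓ n) * x) ∂(ρ n : Measure ℝ) := by
      intro n
      rw [ProbabilityMeasure.toMeasure_map, integral_map (by fun_prop) (by fun_prop),
        ← integral_const_mul]
      congr 1
      funext x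
      rw [hexp]
    simp only [hmom]
    have hsq : Tendsto (fun n => Real.sqrt (ℓ n)) atTop atTop :=
      Real.tendsto_sqrt_atTop.comp hℓ
    have hs : Tendsto (fun n => t / Real.sqrt (ℓ n)) atTop (𝓝 0) :=
      hsq.const_div_atTop t
    -- logarithm of the moment
    have hlog : Tendsto (fun n => Real.log (∫ x, Real.exp (t / Real.sqrt (ℓ n) * x) ∂(ρ n : Measure ℝ))
        - t * nuM * ℓ n / Real.sqrt (ℓ n)) atTop (𝓝 (t ^ 2 * (nuV / 2))) := by
      have hmain : Tendsto (fun n => Lam (t / Real.sqrt (ℓ n)) * ℓ n -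
          t * nuM * ℓ n / Real.sqrt (ℓ n)) atTop (𝓝 (t ^ 2 * (nuV / 2))) := by
        rcases eq_or_ne t 0 with h0 | h0
        · subst h0
          simp [Lam_zero]
        · have hne : Tendsto (fun n => t / Real.sqrt (ℓ n)) atTop (𝓝[≠] 0) := by
            rw [tendsto_nhdsWithin_iff]
            refine ⟨hs, ?_⟩
            filter_upwards [hsq.eventually_gt_atTop 0] with n hn
            exact div_ne_zero h0 hn.ne'
          have h2 := (Lam_taylor.comp hne).const_mul (t ^ 2)
          refine h2.congr' ?_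
          filter_upwards [hℓ.eventually_gt_atTop 0] with n hn
          have h3 : 0 < Real.sqrt (ℓ n) := Real.sqrt_pos.mpr hn
          have h4 : ℓ n = Real.sqrt (ℓ n) ^ 2 := (Real.sq_sqrt hn.le).symm
          simp only [Function.comp]
          set q := Real.sqrt (ℓ n) with hq
          rw [h4]
          have h5 : Real.sqrt (q ^ 2) = q := Real.sqrt_sq h3.le
          field_simp
      have herr : Tendsto (fun n => C * |th (t / Real.sqrt (ℓ n)) - π / 3|) atTop (𝓝 0) := by
        have hc : ContinuousAt th 0 := (th_hasDerivAt hl).continuousAt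
        have h1 : Tendsto (fun n => th (t / Real.sqrt (ℓ n))) atTop (𝓝 (π / 3)) := by
          have := hc.tendsto.comp hs
          rwa [th_zero] at this
        have h2 := ((h1.sub_const (π / 3)).abs).const_mul C
        simpa using h2
      have hdiff : Tendsto (fun n => Real.log (∫ x, Real.exp (t / Real.sqrt (ℓ n) * x)
          ∂(ρ n : Measure ℝ)) - Lam (t / Real.sqrt (ℓ n)) * ℓ n) atTop (𝓝 0) := by
        refine squeeze_zero_norm' ?_ herr
        filter_upwards [hpos, hs.eventually (eventually_le_nhds hl)] with n hn h1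
        exact hn _ h1
      have := hdiff.add hmain
      rw [zero_add] at this
      refine this.congr (fun n => ?_)
      ring
    have hfin := (Real.continuous_exp.tendsto _).comp hlog
    refine hfin.congr' ?_
    refine Eventually.of_forall fun n => ?_
    have hp : 0 < ∫ x, Real.exp (t / Real.sqrt (ℓ n) * x) ∂(ρ n : Measure ℝ) := by
      apply integral_exp_pos
      exact hint n _
    simp only [Function.comp]
    rw [sub_eq_add_neg, Real.exp_add, Real.exp_log hp, mul_comm]

end OneArmW
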