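import Mathlib

/-! Curtiss' theorem: convergence of all exponential moments implies weak convergence. -/

open Real MeasureTheory Filter Topology ProbabilityTheory

namespace OneArmW

theorem cu_tail {μ : Measure ℝ} [IsProbabilityMeasure μ] {B : ℝ}
    (h1 : Integrable (fun x => Real.exp x) μ) (h2 : Integrable (fun x => Real.exp (-x)) μ)
    (hB : ∫ x, Real.exp x ∂μ + ∫ x, Real.exp (-x) ∂μ ≤ B) (r : ℝ) :
    μ (Metric.closedBall (0 : ℝ) r)ᶜ ≤ ENNReal.ofReal (B * Real.exp (-r)) := by
  have hint : Integrable (fun x => Real.exp x + Real.exp (-x)) μ := h1.add h2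
  have hnn : 0 ≤ᵐ[μ] fun x => Real.exp x + Real.exp (-x) :=
    Eventually.of_forall fun x => by
      have := Real.exp_pos x
      have := Real.exp_pos (-x)
      simp only [Pi.zero_apply]
      linarith
  have hch := mul_meas_ge_le_integral_of_nonneg hnn hint (Real.exp r)
  have hsub : (Metric.closedBall (0 : ℝ) r)ᶜ ⊆ {x | Real.exp r ≤ Real.exp x + Real.exp (-x)} := by
    intro x hx
    simp only [Set.mem_compl_iff, Metric.mem_closedBall, dist_zero_right, Real.norm_eq_abs,
      not_le] at hx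
    simp only [Set.mem_ofPred_eq]
    rcases le_total 0 x with h | h
    · rw [abs_of_nonneg h] at hx
      have h3 : Real.exp r ≤ Real.exp x := Real.exp_le_exp.mpr hx.le
      have := Real.exp_pos (-x)
      linarith
    · rw [abs_of_nonpos h] at hx
      have h3 : Real.exp r ≤ Real.exp (-x) := Real.exp_le_exp.mpr hx.le
      have := Real.exp_pos x
      linarith
  have hB' : ∫ x, (Real.exp x + Real.exp (-x)) ∂μ ≤ B := by
    rw [integral_add h1 h2]; exact hB
  have h4 : μ.real {x | Real.exp r ≤ Real.exp x + Real.exp (-x)} ≤ B * Real.exp (-r) := by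
    rw [Real.exp_neg, ← div_eq_mul_inv, le_div_iff₀ (Real.exp_pos r), mul_comm]
    exact hch.trans hB'
  calc μ (Metric.closedBall (0 : ℝ) r)ᶜ ≤ μ {x | Real.exp r ≤ Real.exp x + Real.exp (-x)} :=
        measure_mono hsub
    _ = ENNReal.ofReal (μ.real {x | Real.exp r ≤ Real.exp x + Real.exp (-x)}) :=
        (ofReal_measureReal (measure_ne_top μ _)).symm
    _ ≤ ENNReal.ofReal (B * Real.exp (-r)) := ENNReal.ofReal_le_ofReal h4

/-- truncated exponential as bounded continuous function -/
noncomputable def cuf (t : ℝ) (K : ℕ) : BoundedContinuousFunction ℝ ℝ :=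
  BoundedContinuousFunction.ofNormedAddCommGroup (fun x => min (Real.exp (t * x)) K)
    (by fun_prop) K (fun x => by
      rw [Real.norm_eq_abs, abs_of_nonneg (le_min (Real.exp_pos _).le (Nat.cast_nonneg K))]
      exact min_le_right _ _)

theorem cuf_apply (t : ℝ) (K : ℕ) (x : ℝ) : cuf t K x = min (Real.exp (t * x)) K := rfl

theorem cuf_gap {μ : Measure ℝ} [IsProbabilityMeasure μ] {t B : ℝ} {K : ℕ} (hK : 1 ≤ K)
    (h1 : Integrable (fun x => Real.exp (t * x)) μ)
    (h2 : Integrable (fun x => Real.exp ((2 * t) * x)) μ)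
    (hB : ∫ x, Real.exp ((2 * t) * x) ∂μ ≤ B) :
    |∫ x, Real.exp (t * x) ∂μ - ∫ x, cuf t K x ∂μ| ≤ B / K := by
  have hK0 : (0 : ℝ) < K := by exact_mod_cast hK
  have hint : Integrable (fun x => cuf t K x) μ := (cuf t K).integrable μ
  rw [← integral_sub h1 hint]
  have hb : ∀ x, |Real.exp (t * x) - cuf t K x| ≤ Real.exp ((2 * t) * x) / K := by
    intro x
    rw [cuf_apply, le_div_iff₀ hK0]
    have he := Real.exp_pos (t * x)
    have e2 : Real.exp ((2 * t) * x) = Real.exp (t * x) * Real.exp (t * x) := by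
      rw [← Real.exp_add]; ring_nf
    rcases le_total (Real.exp (t * x)) K with h | h
    · rw [min_eq_left h, sub_self, abs_zero, zero_mul]
      positivity
    · rw [min_eq_right h, abs_of_nonneg (by linarith), e2]
      nlinarith
  calc |∫ x, (Real.exp (t * x) - cuf t K x) ∂μ| ≤ ∫ x, |Real.exp (t * x) - cuf t K x| ∂μ :=
        abs_integral_le_integral_abs
    _ ≤ ∫ x, Real.exp ((2 * t) * x) / K ∂μ :=
        integral_mono (h1.sub hint).abs (h2.div_const _) hb
    _ = (∫ x, Real.exp ((2 * t) * x) ∂μ) / K := integral_div _ _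
    _ ≤ B / K := by
        apply div_le_div_of_nonneg_right hB hK0.le

/-- limit of truncated integrals gives the exponential moment -/
theorem cu_limit {μ : Measure ℝ} [IsProbabilityMeasure μ] {t G B : ℝ}
    (h : ∀ K : ℕ, 1 ≤ K → |G - ∫ x, cuf t K x ∂μ| ≤ B / K) :
    Integrable (fun x => Real.exp (t * x)) μ ∧ ∫ x, Real.exp (t * x) ∂μ = G := by
  have htend : Tendsto (fun K : ℕ => ∫ x, cuf t K x ∂μ) atTop (𝓝 G) := by
    rw [tendsto_iff_norm_sub_tendsto_zero]
    have hz : Tendsto (fun K : ℕ => B / (K : ℝ)) atTop (𝓝 0) := tendsto_const_div_atTop_nhds_zero_nat B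
    refine squeeze_zero' (Eventually.of_forall fun K => norm_nonneg _) ?_ hz
    filter_upwards [eventually_ge_atTop 1] with K hK
    rw [Real.norm_eq_abs, abs_sub_comm]
    exact h K hK
  have hpt : ∀ x, Tendsto (fun K : ℕ => cuf t K x) atTop (𝓝 (Real.exp (t * x))) := by
    intro x
    refine tendsto_const_nhds.congr' ?_
    filter_upwards [eventually_ge_atTop ⌈Real.exp (t * x)⌉₊] with K hK
    rw [cuf_apply, min_eq_left]
    exact (Nat.le_ceil _).trans (by exact_mod_cast hK)
  have hI : Integrable (fun x => Real.exp (t * x)) μ := by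
    refine ⟨by fun_prop, ?_⟩
    rw [hasFiniteIntegral_iff_ofReal (Eventually.of_forall fun x => (Real.exp_pos _).le)]
    have hF : ∫⁻ x, ENNReal.ofReal (Real.exp (t * x)) ∂μ ≤
        liminf (fun K : ℕ => ∫⁻ x, ENNReal.ofReal (cuf t K x) ∂μ) atTop := by
      have e : (fun x => ENNReal.ofReal (Real.exp (t * x))) =
          fun x => liminf (fun K : ℕ => ENNReal.ofReal (cuf t K x)) atTop := by
        funext x
        exact ((ENNReal.continuous_ofReal.tendsto _).comp (hpt x)).liminf_eq.symm
      rw [e]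
      exact lintegral_liminf_le fun K => by
        have : Continuous fun x => cuf t K x := (cuf t K).continuous
        fun_prop
    have hG : Tendsto (fun K : ℕ => ∫⁻ x, ENNReal.ofReal (cuf t K x) ∂μ) atTop
        (𝓝 (ENNReal.ofReal G)) := by
      have e : (fun K : ℕ => ∫⁻ x, ENNReal.ofReal (cuf t K x) ∂μ) =
          fun K : ℕ => ENNReal.ofReal (∫ x, cuf t K x ∂μ) := by
        funext K
        rw [ofReal_integral_eq_lintegral_ofReal ((cuf t K).integrable μ)
          (Eventually.of_forall fun x => by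
            show 0 ≤ cuf t K x
            rw [cuf_apply]
            exact le_min (Real.exp_pos _).le (Nat.cast_nonneg K))]
      rw [e]
      exact (ENNReal.continuous_ofReal.tendsto _).comp htend
    rw [hG.liminf_eq] at hF
    exact hF.trans_lt ENNReal.ofReal_lt_top
  refine ⟨hI, ?_⟩
  have h2 : Tendsto (fun K : ℕ => ∫ x, cuf t K x ∂μ) atTop (𝓝 (∫ x, Real.exp (t * x) ∂μ)) := by
    refine tendsto_integral_of_dominated_convergence (fun x => Real.exp (t * x))
      (fun K => ((cuf t K).continuous).aestronglyMeasurable) hI ?_ (Eventually.of_forall hpt)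
    intro K
    refine Eventually.of_forall fun x => ?_
    rw [cuf_apply, Real.norm_eq_abs,
      abs_of_nonneg (le_min (Real.exp_pos _).le (Nat.cast_nonneg K))]
    exact min_le_left _ _
  exact tendsto_nhds_unique h2 htend

theorem curtiss {μ : ℕ → ProbabilityMeasure ℝ} {μ₀ : ProbabilityMeasure ℝ}
    (hi : ∀ n t, Integrable (fun x => Real.exp (t * x)) (μ n : Measure ℝ))
    (hi0 : ∀ t, Integrable (fun x => Real.exp (t * x)) (μ₀ : Measure ℝ))
    (h : ∀ t : ℝ, Tendsto (fun n => ∫ x, Real.exp (t * x) ∂(μ n : Measure ℝ)) atTop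
      (𝓝 (∫ x, Real.exp (t * x) ∂(μ₀ : Measure ℝ)))) :
    Tendsto μ atTop (𝓝 μ₀) := by
  -- bounds
  have hbd : ∀ t : ℝ, ∃ B : ℝ, ∀ n, ∫ x, Real.exp (t * x) ∂(μ n : Measure ℝ) ≤ B := by
    intro t
    obtain ⟨B, hB⟩ := (h t).bddAbove_range
    exact ⟨B, fun n => hB ⟨n, rfl⟩⟩
  -- tightness
  have h_tight : IsTightMeasureSet {((μ n : ProbabilityMeasure ℝ) : Measure ℝ) | n} := by
    obtain ⟨B1, hB1⟩ := hbd 1
    obtain ⟨B2, hB2⟩ := hbd (-1)
    rw [isTightMeasureSet_iff_tendsto_measure_compl_closedBall (0 : ℝ)]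
    have hz : Tendsto (fun r : ℝ => ENNReal.ofReal ((B1 + B2) * Real.exp (-r))) atTop (𝓝 0) := by
      have h3 : Tendsto (fun r : ℝ => (B1 + B2) * Real.exp (-r)) atTop (𝓝 0) := by
        have := (Real.tendsto_exp_neg_atTop_nhds_zero).const_mul (B1 + B2)
        simpa using this
      have := (ENNReal.continuous_ofReal.tendsto 0).comp h3
      rw [ENNReal.ofReal_zero] at this
      exact this
    refine tendsto_of_tendsto_of_tendsto_of_le_of_le tendsto_const_nhds hz
      (fun r => zero_le) (fun r => ?_)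
    refine iSup₂_le fun ν hν => ?_
    obtain ⟨n, rfl⟩ := hν
    have k1 : Integrable (fun x => Real.exp x) (μ n : Measure ℝ) := by simpa using hi n 1
    have k2 : Integrable (fun x => Real.exp (-x)) (μ n : Measure ℝ) := by simpa using hi n (-1)
    refine cu_tail k1 k2 ?_ r
    have q1 := hB1 n
    have q2 := hB2 n
    simp only [one_mul] at q1
    have e : ∀ x : ℝ, -1 * x = -x := fun x => by ring
    simp only [e] at q2
    linarith
  refine (Filter.tendsto_iff_ultrafilter _ _ _).2 fun U hU ↦ ?_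
  have h_compact : IsCompact (closure {μ n | n}) :=
    isCompact_closure_of_isTightMeasureSet (by simpa using h_tight)
  obtain ⟨μ', -, hμ' : Tendsto _ _ _⟩ := h_compact.ultrafilter_le_nhds (U.map μ)
    (.trans (by simp) (monotone_principal subset_closure))
  suffices hs : (μ' : Measure ℝ) = μ₀ by
    have : μ' = μ₀ := Subtype.ext hs
    rw [← this]
    exact hμ'
  have hmom : ∀ t : ℝ, Integrable (fun x => Real.exp (t * x)) (μ' : Measure ℝ) ∧
      ∫ x, Real.exp (t * x) ∂(μ' : Measure ℝ) = ∫ x, Real.exp (t * x) ∂(μ₀ : Measure ℝ) := by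
    intro t
    obtain ⟨B, hB⟩ := hbd (2 * t)
    refine cu_limit (B := B) (fun K hK => ?_)
    have t1 : Tendsto (fun n => ∫ x, Real.exp (t * x) ∂(μ n : Measure ℝ)) U
        (𝓝 (∫ x, Real.exp (t * x) ∂(μ₀ : Measure ℝ))) := (h t).mono_left hU
    have t2 : Tendsto (fun n => ∫ x, cuf t K x ∂(μ n : Measure ℝ)) U
        (𝓝 (∫ x, cuf t K x ∂(μ' : Measure ℝ))) := by
      have := (ProbabilityMeasure.tendsto_iff_forall_integral_tendsto.mp hμ') (cuf t K)
      exact this
    refine le_of_tendsto ((t1.sub t2).abs) (Eventually.of_forall fun n => ?_)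
    exact cuf_gap hK (hi n t) (hi n (2 * t)) (hB n)
  have hmgf : mgf id (μ' : Measure ℝ) = mgf id (μ₀ : Measure ℝ) := by
    funext t
    unfold mgf
    simp only [id]
    exact (hmom t).2
  have huniv : integrableExpSet id (μ' : Measure ℝ) = Set.univ := by
    ext t
    simp only [integrableExpSet, Set.mem_ofPred_eq, Set.mem_univ, iff_true, id]
    exact (hmom t).1
  apply Measure.ext_of_complexMGF_id_eq
  funext z
  have := eqOn_complexMGF_of_mgf (μ := (μ' : Measure ℝ)) (μ' := (μ₀ : Measure ℝ)) hmgf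
  apply this
  rw [huniv, interior_univ]
  trivial

end OneArmW
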